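import Pool.Agent.H390R2.Core

/-!
Good abc triples from a bound for the shortest vectors of the lattices of index `N` in the `l¹` norm
(the argument of `Pool.Agent.H390R2.core`, with a general constant `κ`).
-/

open Finset Nat Filter Topology

namespace Pool.Agent.TH871.L1

open Pool.Agent.H390R2

lemma opt' {ε K n m L J X1 C0 : ℝ} (hε : 0 < ε) (hε1 : ε ≤ 1 / 4) (hC0 : 0 < C0)
    (hK : K ^ 2 * (1 + 2 * ε) * Real.exp ε * C0 ≤ (2 - ε) ^ 4 * Real.exp 1 * (1 - ε))
    (hn : 0 < n) (hm : 0 < m) (hL : 0 < L)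
    (hgood : (1 - ε) * m / L ≤ n * J)
    (hX1 : X1 = (1 + 2 * ε) * (C0 * Real.exp ε * (n * m * L * Real.exp (-J)))) :
    K * √X1 ≤ (2 - ε) * L * ((2 - ε) * n) := by
  have hX0 : 0 ≤ X1 := by rw [hX1]; positivity
  have h2 : 0 < 2 - ε := by linarith
  have hR : 0 ≤ (2 - ε) * L * ((2 - ε) * n) := by positivity
  refine abs_le_of_sq_le_sq' ?_ hR |>.2
  rw [mul_pow, Real.sq_sqrt hX0]
  -- `J ≤ exp (J - 1)`
  have h3 : J * Real.exp (1 - J) ≤ 1 := by
    have := Real.add_one_le_exp (J - 1)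
    calc J * Real.exp (1 - J) ≤ Real.exp (J - 1) * Real.exp (1 - J) := by
          gcongr; linarith
      _ = 1 := by rw [← Real.exp_add]; simp
  have h4 : Real.exp 1 * (1 - ε) * m * Real.exp (-J) ≤ n * L := by
    have h5 : (1 - ε) * m ≤ n * J * L := by rwa [div_le_iff₀ hL] at hgood
    have h6 : Real.exp (1 - J) = Real.exp 1 * Real.exp (-J) := by
      rw [← Real.exp_add]; ring_nf
    calc Real.exp 1 * (1 - ε) * m * Real.exp (-J) = ((1 - ε) * m) * Real.exp (1 - J) := by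
          rw [h6]; ring
      _ ≤ (n * J * L) * Real.exp (1 - J) := by gcongr
      _ = n * L * (J * Real.exp (1 - J)) := by ring
      _ ≤ n * L * 1 := by gcongr
      _ = n * L := by ring
  calc K ^ 2 * X1 = (K ^ 2 * (1 + 2 * ε) * Real.exp ε * C0) *
        (n * m * L * Real.exp (-J)) := by rw [hX1]; ring
    _ ≤ ((2 - ε) ^ 4 * Real.exp 1 * (1 - ε)) * (n * m * L * Real.exp (-J)) := by gcongr
    _ = (2 - ε) ^ 4 * (n * L) * (Real.exp 1 * (1 - ε) * m * Real.exp (-J)) := by ring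
    _ ≤ (2 - ε) ^ 4 * (n * L) * (n * L) := by gcongr
    _ = ((2 - ε) * L * ((2 - ε) * n)) ^ 2 := by ring

theorem core' {ε K κ : ℝ} (hε : 0 < ε) (hε1 : ε ≤ 1 / 4) (hK0 : 0 ≤ K) (hκ : 0 < κ)
    (hlat : ∃ (n0 : ℕ) (B : ℝ), ∀ (ι : Type) [Fintype ι] (N : ℕ) (W : ι → ℤ),
      n0 ≤ Fintype.card ι → 0 < N → B * Fintype.card ι ≤ Real.log N →
      ∃ e : ι → ℤ, e ≠ 0 ∧ (N : ℤ) ∣ ∑ i, W i * e i ∧
        ∑ i, |(e i : ℝ)| ≤ κ * Fintype.card ι * Real.exp (Real.log N / Fintype.card ι))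
    (hK : K ^ 2 * (1 + 2 * ε) * Real.exp ε * (κ * Real.exp 2 / 2) ≤
      (2 - ε) ^ 4 * Real.exp 1 * (1 - ε)) (X0 : ℝ) :
    ∃ a b c : ℕ, IsABCTriple a b c ∧ X0 < Real.log c ∧
      K * √(Real.log c) / Real.log (Real.log c) <
        Real.log c - Real.log (rad (a * b * c)) := by
  obtain ⟨n0, B0, hlat⟩ := hlat
  obtain ⟨D, hD0, hD⟩ := ev_II
  set C0 : ℝ := κ * Real.exp 2 / 2 with hC0
  have hC00 : 0 < C0 := by positivity
  set B : ℝ := max (Real.exp 2) (max (X0 + 1) n0) with hB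
  have hBe : Real.exp 2 ≤ B := le_max_left _ _
  have hBX : X0 + 1 ≤ B := (le_max_left _ _).trans (le_max_right _ _)
  have hBn : (n0 : ℝ) ≤ B := (le_max_right _ _).trans (le_max_right _ _)
  have hB0 : 0 < B := lt_of_lt_of_le (Real.exp_pos 2) hBe
  set c1 : ℝ := C0 * Real.exp (-D) / 2 with hc1
  have hc10 : 0 < c1 := by positivity
  obtain ⟨b9, hb9⟩ := exists_nat_ge (1 / (4 * ε * c1))
  obtain ⟨b8, hb8⟩ := exists_nat_ge (κ * Real.exp 3)
  have hev : ∀ᶠ m : ℕ in atTop,
      45 ≤ m ∧ b9 ≤ m ∧ 1 ≤ Real.log m ∧ -Real.log c1 / ε ≤ Real.log m ∧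
      (m : ℝ) / (2 * Real.log m) ≤ Nat.primeCounting m ∧
      II m ≤ D * Nat.primeCounting m ∧
      B0 + D ≤ Real.log m ∧
      2 * B * Real.log m ^ 1 ≤ 1 * m ∧
      2 * Real.log m ^ 1 ≤ ε * m ∧
      20 * Real.log m ^ 2 ≤ ε * m ∧ b8 ≤ m := by
    filter_upwards [eventually_ge_atTop 45, eventually_ge_atTop b9, ev_log 1,
      ev_log (-Real.log c1 / ε), ev_pi, hD, ev_log (B0 + D),
      ev_pow 1 (a := 1) one_pos (2 * B), ev_pow 1 hε 2, ev_pow 2 hε 20, eventually_ge_atTop b8]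
      with m h1 h2 h3 h4 h5 h6 h7 h8 h9 h10 h11
    exact ⟨h1, h2, h3, h4, h5, h6, h7, h8, h9, h10, h11⟩
  obtain ⟨Y, hY⟩ := eventually_atTop.mp hev
  obtain ⟨m, hmY, hgood⟩ := exists_good hε Y
  obtain ⟨h1, h2, h3, h4, h5, h6, h7, h8, h9, h10, h11⟩ := hY m hmY
  clear hev hY hD hmY
  have hm45 : (45 : ℝ) ≤ m := by exact_mod_cast h1
  have hm0 : (0 : ℝ) < m := by linarith
  set L : ℝ := Real.log m with hL
  have hL0 : 0 < L := by linarith
  have hLm : L ≤ m := (Real.log_le_sub_one_of_pos hm0).trans (by linarith)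
  set n : ℝ := (Nat.primeCounting m : ℝ) with hn
  have hn0 : 0 < n := lt_of_lt_of_le (by positivity) h5
  have hnm : n ≤ m := by
    rw [hn, ← Nat.primesLE_card_eq_primeCounting]
    have : (primesLE m).card ≤ m := by
      have h := Finset.card_le_card (s := primesLE m) (t := Finset.Icc 1 m) (fun p hp => by
        rw [Finset.mem_Icc]
        exact ⟨(prime_of_mem_primesLE hp).one_le, le_of_mem_primesLE hp⟩)
      simpa using h
    exact_mod_cast this
  rw [pow_one] at h8 h9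
  have hnL : (m : ℝ) / 2 ≤ n * L := by
    rw [div_le_iff₀ (by positivity)] at h5
    linarith
  have hnB : B ≤ n := by
    refine le_trans ?_ h5
    rw [le_div_iff₀ (by positivity)]
    linarith
  have hεn : 1 ≤ ε * n := by
    have : 1 ≤ ε * (m / (2 * L)) := by
      rw [mul_div_assoc', le_div_iff₀ (by positivity)]; linarith
    exact this.trans (by gcongr)
  have hεL : 10 * L ≤ ε * n := by
    have : 10 * L ≤ ε * (m / (2 * L)) := by
      rw [mul_div_assoc', le_div_iff₀ (by positivity)]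
      calc 10 * L * (2 * L) = 20 * L ^ 2 := by ring
        _ ≤ ε * m := h10
    exact this.trans (by gcongr)
  set J : ℝ := II m / n with hJ
  have hnJ : n * J = II m := by rw [hJ]; field_simp
  have hJD : J ≤ D := by
    rw [hJ, div_le_iff₀ hn0]; exact h6
  have hII0 : 0 < II m := lt_of_lt_of_le (by
    have : 0 < 1 - ε := by linarith
    positivity) hgood
  have hJ0 : 0 < J := by positivity
  set θ : ℝ := ∑ p ∈ primesLE m, Real.log p with hθ
  have hθJ : θ = n * L - n * J := by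
    rw [hnJ, II_eq (by omega)]; ring
  -- the modulus
  set N : ℕ := ⌈Real.exp (θ + 2 * n)⌉₊ with hN
  have hNle : Real.exp (θ + 2 * n) ≤ N := Nat.le_ceil _
  have hNlt : (N : ℝ) < Real.exp (θ + 2 * n) + 1 := Nat.ceil_lt_add_one (Real.exp_pos _).le
  have hN0' : (0 : ℝ) < N := lt_of_lt_of_le (Real.exp_pos _) hNle
  have hN0 : 0 < N := by exact_mod_cast hN0'
  have hθ0 : 0 ≤ θ := Finset.sum_nonneg fun p hp =>
    Real.log_natCast_nonneg p
  have hlogN1 : θ + 2 * n ≤ Real.log N := by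
    rw [Real.le_log_iff_exp_le hN0']; exact hNle
  have hlogN2 : Real.log N ≤ θ + 2 * n + 1 := by
    rw [Real.log_le_iff_le_exp hN0']
    refine hNlt.le.trans ?_
    rw [Real.exp_add (θ + 2 * n) 1]
    have h11 : 1 ≤ Real.exp (θ + 2 * n) := Real.one_le_exp (by positivity)
    have h12 : 2 ≤ Real.exp 1 := by linarith [Real.add_one_le_exp (1 : ℝ)]
    nlinarith
  have hl2 : (0 : ℝ) < Real.log 2 := Real.log_pos one_lt_two
  have hlogp' : ∀ p : {p // p ∈ primesLE m}, Real.log (p : ℕ) ≤ L := fun p =>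
    Real.log_le_log (by exact_mod_cast (prime_of_mem_primesLE p.2).pos)
      (by exact_mod_cast le_of_mem_primesLE p.2)
  have hcard : (Fintype.card {p // p ∈ primesLE m} : ℝ) = n := by
    rw [hn, ← Nat.primesLE_card_eq_primeCounting, Fintype.card_coe]
  -- the length
  set A : ℝ := C0 * Real.exp ε * (n * m * L * Real.exp (-J)) with hA
  have hA0 : 0 < A := by positivity
  set lam : ℝ := 2 * A with hlam
  have hlam0 : 0 < lam := by positivity
  have hexpN : Real.exp (Real.log N / n) ≤ m * Real.exp (-J) * Real.exp 2 * Real.exp ε := by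
    have h12 : Real.log N / n ≤ L + -J + 2 + ε := by
      rw [div_le_iff₀ hn0]
      calc Real.log N ≤ θ + 2 * n + 1 := hlogN2
        _ ≤ θ + 2 * n + ε * n := by linarith
        _ = (L + -J + 2 + ε) * n := by rw [hθJ]; ring
    have h13 := Real.exp_le_exp.mpr h12
    rw [Real.exp_add, Real.exp_add, Real.exp_add, hL, Real.exp_log hm0] at h13
    exact h13
  obtain ⟨a, b, c, habc, hcle, hcrad⟩ := exists_triple (m := m) (N := N) (lam := lam) hN0 hlam0
    (by
      intro W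
      obtain ⟨e, he, hdvd, hle⟩ := hlat {p // p ∈ primesLE m} N W
        (by
          have : (n0 : ℝ) ≤ (Fintype.card {p // p ∈ primesLE m} : ℝ) := by
            rw [hcard]; exact hBn.trans hnB
          exact_mod_cast this) hN0 (by
          rw [hcard]
          refine le_trans ?_ hlogN1
          have h12 : B0 + J ≤ L := by linarith
          have h13 := mul_le_mul_of_nonneg_right h12 hn0.le
          rw [hθJ]
          linarith)
      refine ⟨e, he, hdvd, ?_⟩
      rw [hcard] at hle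
      calc ∑ i : {p // p ∈ primesLE m}, |(e i : ℝ)| * Real.log (i : ℕ)
          ≤ ∑ i : {p // p ∈ primesLE m}, |(e i : ℝ)| * L :=
            Finset.sum_le_sum fun i _ => mul_le_mul_of_nonneg_left (hlogp' i) (abs_nonneg _)
        _ = (∑ i : {p // p ∈ primesLE m}, |(e i : ℝ)|) * L := by rw [Finset.sum_mul]
        _ ≤ (κ * n * Real.exp (Real.log N / n)) * L := by gcongr
        _ ≤ (κ * n * (m * Real.exp (-J) * Real.exp 2 * Real.exp ε)) * L := by gcongr
        _ = lam := by rw [hlam, hA, hC0]; ring)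
  rw [← hθ] at hcrad
  -- crude bound for `lam`
  have hlamm : lam ≤ (m : ℝ) ^ 4 := by
    have h20 : Real.exp 2 * Real.exp ε ≤ Real.exp 3 := by
      rw [← Real.exp_add]; exact Real.exp_le_exp.mpr (by linarith)
    have h21 : Real.exp (-J) ≤ 1 := Real.exp_le_one_iff.mpr (by linarith)
    have h22 : κ * Real.exp 3 ≤ m := hb8.trans (by exact_mod_cast h11)
    calc lam = κ * (Real.exp 2 * Real.exp ε) * (n * m * L * Real.exp (-J)) := by
          rw [hlam, hA, hC0]; ring
      _ ≤ κ * Real.exp 3 * (m * m * m * 1) := by gcongr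
      _ ≤ m * (m * m * m * 1) := by gcongr
      _ = (m : ℝ) ^ 4 := by ring
  have hlam1 : lam + 1 ≤ (m : ℝ) ^ 5 := by
    have : (1 : ℝ) ≤ (m : ℝ) ^ 4 := one_le_pow₀ (by linarith)
    calc lam + 1 ≤ (m : ℝ) ^ 4 + (m : ℝ) ^ 4 := by linarith
      _ = 2 * (m : ℝ) ^ 4 := by ring
      _ ≤ m * (m : ℝ) ^ 4 := by gcongr; linarith
      _ = (m : ℝ) ^ 5 := by ring
  have hprod : lam * (lam + 1) ≤ (m : ℝ) ^ 9 := by
    calc lam * (lam + 1) ≤ (m : ℝ) ^ 4 * (m : ℝ) ^ 5 := by gcongr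
      _ = (m : ℝ) ^ 9 := by ring
  have hlogprod : Real.log (lam * (lam + 1)) ≤ 9 * L := by
    have := Real.log_le_log (by positivity) hprod
    rwa [Real.log_pow] at this
  -- the error term is at most one
  have hεn4 : ε * n ≤ 1 / 4 * n := by gcongr
  have herr : lam * (lam + 1) / (N * Real.log 2) ≤ 1 := by
    rw [div_le_one (by positivity)]
    rw [← Real.log_le_log_iff (by positivity) (by positivity),
      Real.log_mul hN0'.ne' hl2.ne']
    linarith [loglog_two]
  have hdiff : (2 - ε) * n < Real.log c - Real.log (rad (a * b * c)) := by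
    linarith [loglog_two]
  have hrad0 : 0 ≤ Real.log (rad (a * b * c)) := Real.log_natCast_nonneg _
  have hcn : (2 - ε) * n < Real.log c := by linarith
  have hcB : B < Real.log c := by linarith
  -- the upper bound for `log c`
  set X1 : ℝ := (1 + 2 * ε) * A with hX1
  have hAlow : c1 * (m : ℝ) ^ 2 ≤ A := by
    have h23 : Real.exp (-D) ≤ Real.exp (-J) := Real.exp_le_exp.mpr (by linarith)
    have h24 : 1 ≤ Real.exp ε := Real.one_le_exp (by positivity)
    calc c1 * (m : ℝ) ^ 2 = C0 * 1 * ((m / 2) * m * Real.exp (-D)) := by rw [hc1]; ring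
      _ ≤ C0 * Real.exp ε * ((n * L) * m * Real.exp (-J)) := by gcongr
      _ = A := by rw [hA]; ring
  have hcX1 : Real.log c ≤ X1 := by
    have h25 : 1 / 4 ≤ ε * A := by
      have h26 : 1 / (4 * ε * c1) ≤ m := hb9.trans (by exact_mod_cast h2)
      rw [div_le_iff₀ (by positivity)] at h26
      have h27 : (m : ℝ) ≤ (m : ℝ) ^ 2 := by nlinarith
      calc (1 / 4 : ℝ) ≤ (m * (4 * ε * c1)) / 4 := by linarith
        _ = ε * (c1 * m) := by ring
        _ ≤ ε * (c1 * (m : ℝ) ^ 2) := by gcongr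
        _ ≤ ε * A := by gcongr
    rw [hX1]
    linarith
  have hX1log : (2 - ε) * L ≤ Real.log X1 := by
    have h28 : c1 * (m : ℝ) ^ 2 ≤ X1 := by
      rw [hX1]
      have h31 : 0 ≤ ε * A := by positivity
      linarith
    have h29 := Real.log_le_log (by positivity) h28
    rw [Real.log_mul hc10.ne' (by positivity), Real.log_pow] at h29
    rw [div_le_iff₀ hε] at h4
    push_cast at h29
    linarith
  refine ⟨a, b, c, habc, by linarith, ?_⟩
  have hopt := opt' (X1 := X1) (J := J) (K := K) hε hε1 hC00 hK hn0 hm0 hL0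
    (by rw [hnJ]; exact hgood) (by rw [hX1])
  have h2ε : 0 < 2 - ε := by linarith
  refine lt_of_le_of_lt ?_ hdiff
  calc K * √(Real.log c) / Real.log (Real.log c)
      = K * (√(Real.log c) / Real.log (Real.log c)) := by ring
    _ ≤ K * (√X1 / Real.log X1) := by
        gcongr ?_ * ?_
        exact sqrt_div_log (hBe.trans hcB.le) hcX1
    _ ≤ K * (√X1 / ((2 - ε) * L)) := by gcongr
    _ = K * √X1 / ((2 - ε) * L) := by ring
    _ ≤ (2 - ε) * n := by
        rw [div_le_iff₀ (by positivity)]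
        linarith

/-- Good abc triples, for every `K` with `K ^ 2 * κ * e < 32`. -/
theorem triples {K κ : ℝ} (hK0 : 0 ≤ K) (hκ : 0 < κ)
    (hlat : ∀ ε : ℝ, 0 < ε → ∃ (n0 : ℕ) (B : ℝ), ∀ (ι : Type) [Fintype ι] (N : ℕ) (W : ι → ℤ),
      n0 ≤ Fintype.card ι → 0 < N → B * Fintype.card ι ≤ Real.log N →
      ∃ e : ι → ℤ, e ≠ 0 ∧ (N : ℤ) ∣ ∑ i, W i * e i ∧
        ∑ i, |(e i : ℝ)| ≤ (κ + ε) * Fintype.card ι * Real.exp (Real.log N / Fintype.card ι))
    (hK : K ^ 2 * κ * Real.exp 1 < 32) (X0 : ℝ) :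
    ∃ a b c : ℕ, IsABCTriple a b c ∧ X0 < Real.log c ∧
      K * √(Real.log c) / Real.log (Real.log c) <
        Real.log c - Real.log (rad (a * b * c)) := by
  have hc1 : Continuous (fun ε : ℝ =>
      K ^ 2 * (1 + 2 * ε) * Real.exp ε * ((κ + ε) * Real.exp 2 / 2)) := by fun_prop
  have hc2 : Continuous (fun ε : ℝ => (2 - ε) ^ 4 * Real.exp 1 * (1 - ε)) := by fun_prop
  have hlt : ∀ᶠ ε : ℝ in 𝓝 0,
      K ^ 2 * (1 + 2 * ε) * Real.exp ε * ((κ + ε) * Real.exp 2 / 2) <
      (2 - ε) ^ 4 * Real.exp 1 * (1 - ε) := by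
    refine (hc1.tendsto 0).eventually_lt (hc2.tendsto 0) ?_
    simp only [mul_zero, add_zero, mul_one, sub_zero, Real.exp_zero]
    have h1 : Real.exp 2 = Real.exp 1 * Real.exp 1 := by rw [← Real.exp_add]; norm_num
    have h2 : 0 < Real.exp 1 := Real.exp_pos 1
    rw [h1]
    nlinarith
  obtain ⟨δ, hδ0, hδ⟩ := Metric.eventually_nhds_iff.mp hlt
  set ε := min (δ / 2) (1 / 4) with hε
  have hε0 : 0 < ε := by positivity
  refine core' hε0 (min_le_right _ _) hK0 (by positivity) (hlat ε hε0) (hδ ?_).le X0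
  rw [Real.dist_eq, sub_zero, abs_of_pos hε0]
  exact lt_of_le_of_lt (min_le_left _ _) (by linarith)

end Pool.Agent.TH871.L1
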