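import Pool.Agent.TH871.L1.Disc
import Pool.Agent.H390R2.LP.Main

/-! Short vectors in the `l¹` norm of integral lattices of index `N`, from a one-site state. -/

open Finset Filter Topology

namespace Pool.Agent.TH871.L1

open Pool.Agent.H390R2.LP

theorem lattice_of_site {q R : ℕ} (s : Site (Fin q × Fin R) (Fin q)) {ε : ℝ} (hε : 0 < ε) :
    ∃ n0 : ℕ, ∀ (ι : Type) [Fintype ι] (N m : ℕ) (W : ι → ℤ), n0 ≤ Fintype.card ι → 0 < N → 0 < m →
      Real.log N ≤ Fintype.card ι * (Real.log m + s.h - s.S - ε) →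
      ∃ e : ι → ℤ, e ≠ 0 ∧ (N : ℤ) ∣ ∑ i, W i * e i ∧
        ∑ i, |(e i : ℝ)| ≤ Fintype.card ι * m * (s.E (thr q) + 1 + ε) := by
  obtain ⟨n0, hn0⟩ := iid (Fin q × Fin R) (Fin q) (Fin q) s (thr q) (ε / 2) (by positivity)
  refine ⟨max n0 1, ?_⟩
  intro ι _ N m W hn hN hm hlog
  classical
  by_contra hcon
  push Not at hcon
  have hE : 0 ≤ s.E (thr q) := Pool.Agent.H785R2.LP.E_nonneg s _
  set E := s.E (thr q) with hEdef
  have hmR : (0 : ℝ) < m := by exact_mod_cast hm
  have hNR : (0 : ℝ) < N := by exact_mod_cast hN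
  set n := Fintype.card ι with hnn
  have hn1 : n0 ≤ n := (le_max_left _ _).trans hn
  have hn2 : 1 ≤ n := (le_max_right _ _).trans hn
  have hnR : (0 : ℝ) < n := by exact_mod_cast hn2
  let eq : ι ≃ Fin n := Fintype.equivFin ι
  have hcon' : ∀ e : Fin n → ℤ, e ≠ 0 → (N : ℤ) ∣ ∑ k, W (eq.symm k) * e k →
      n * m * (E + 1 + ε) < ∑ k, |(e k : ℝ)| := by
    intro e he hdvd
    have h1 := hcon (fun i => e (eq i)) (by
      intro h
      apply he
      funext k
      have := congrFun h (eq.symm k)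
      simpa using this) (by
      rw [← Equiv.sum_comp eq.symm]
      simpa using hdvd)
    rw [← Equiv.sum_comp eq.symm] at h1
    simpa using h1
  have : NeZero N := ⟨hN.ne'⟩
  set cl : (Fin n → Fin q) → (Fin n → Fin m) → ZMod N := fun c z =>
    ((∑ k, W (eq.symm k) * ((m : ℤ) * (c k : ℕ) + (z k : ℕ)) : ℤ) : ZMod N) with hcl
  have hdiff : ∀ c z c' z', cl c z = cl c' z' → (N : ℤ) ∣ ∑ k, W (eq.symm k) *
      (((m : ℤ) * (c k : ℕ) + (z k : ℕ)) - ((m : ℤ) * (c' k : ℕ) + (z' k : ℕ))) := by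
    intro c z c' z' h
    rw [← ZMod.intCast_zmod_eq_zero_iff_dvd]
    simp only [hcl] at h
    rw [← sub_eq_zero, ← Int.cast_sub, ← sum_sub_distrib] at h
    rw [← h]
    congr 1
    exact sum_congr rfl fun k _ => by ring
  have hzz : ∀ (z z' : Fin m), |((z : ℕ) : ℤ) - ((z' : ℕ) : ℤ)| < m := by
    intro z z'
    rw [abs_lt]
    have h1 := z.2
    have h2 := z'.2
    constructor <;> omega
  set SS : ZMod N → Finset (Fin n → Fin q) := fun v =>
    univ.filter fun c => ∃ z : Fin n → Fin m, cl c z = v with hSS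
  have hinj : ∀ c, Function.Injective (cl c) := by
    intro c z z' h
    by_contra hne
    have h1 := hdiff c z c z' h
    set e : Fin n → ℤ := fun k => ((m : ℤ) * (c k : ℕ) + (z k : ℕ)) - ((m : ℤ) * (c k : ℕ) + (z' k : ℕ))
      with he
    have he0 : e ≠ 0 := by
      intro h2
      apply hne
      funext k
      have h3 := congrFun h2 k
      simp only [he, Pi.zero_apply] at h3
      exact Fin.ext (by omega)
    have h4 := hcon' e he0 h1
    have h5 : ∑ k, |(e k : ℝ)| ≤ ∑ _k : Fin n, (m : ℝ) := by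
      refine sum_le_sum fun k _ => ?_
      have h6 : e k = ((z k : ℕ) : ℤ) - ((z' k : ℕ) : ℤ) := by simp only [he]; ring
      have h7 := (hzz (z k) (z' k)).le
      rw [← h6] at h7
      exact_mod_cast h7
    rw [sum_const, card_univ, Fintype.card_fin, nsmul_eq_mul] at h5
    have h8 : (n : ℝ) * m * 1 ≤ n * m * (E + 1 + ε) := by
      refine mul_le_mul_of_nonneg_left ?_ (by positivity)
      linarith
    linarith
  have hcov : ∀ c, (univ.filter fun v => c ∈ SS v).card = m ^ n := by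
    intro c
    have h1 : (univ.filter fun v => c ∈ SS v) = univ.image (cl c) := by
      ext v
      simp only [hSS, mem_filter, mem_univ, true_and, mem_image]
    rw [h1, card_image_of_injective _ (hinj c), card_univ, Fintype.card_fun, Fintype.card_fin,
      Fintype.card_fin]
  have hdist : ∀ v, ∀ x ∈ SS v, ∀ y ∈ SS v, x ≠ y →
      n * (E + ε) ≤ ∑ k, ∑ t, (thr q t (x k) - thr q t (y k)) ^ 2 := by
    intro v c hc c' hc' hne
    simp only [hSS, mem_filter, mem_univ, true_and] at hc hc'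
    obtain ⟨z, hz⟩ := hc
    obtain ⟨z', hz'⟩ := hc'
    have h1 := hdiff c z c' z' (hz.trans hz'.symm)
    set e : Fin n → ℤ := fun k => ((m : ℤ) * (c k : ℕ) + (z k : ℕ)) -
      ((m : ℤ) * (c' k : ℕ) + (z' k : ℕ)) with he
    have he0 : e ≠ 0 := by
      intro h2
      apply hne
      funext k
      have h3 := congrFun h2 k
      simp only [he, Pi.zero_apply] at h3
      have h4 : (m : ℤ) * (((c k : ℕ) : ℤ) - ((c' k : ℕ) : ℤ)) = -(((z k : ℕ) : ℤ) - ((z' k : ℕ) : ℤ)) := by
        linarith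
      have h5 := hzz (z k) (z' k)
      rw [← abs_neg, ← h4, abs_mul, Nat.abs_cast] at h5
      have h6 : |((c k : ℕ) : ℤ) - ((c' k : ℕ) : ℤ)| < 1 := by
        by_contra h7
        push Not at h7
        have hm' : (0 : ℤ) < m := by exact_mod_cast hm
        nlinarith
      have h8 := Int.abs_lt_one_iff.mp h6
      exact Fin.ext (by omega)
    have h4 := hcon' e he0 h1
    have h5 : ∑ k, |(e k : ℝ)| ≤ ∑ k : Fin n, ((m : ℝ) * |((c k : ℕ) : ℝ) - ((c' k : ℕ) : ℝ)| + m) := by
      refine sum_le_sum fun k _ => ?_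
      have h6 : e k = (m : ℤ) * (((c k : ℕ) : ℤ) - ((c' k : ℕ) : ℤ)) +
          (((z k : ℕ) : ℤ) - ((z' k : ℕ) : ℤ)) := by simp only [he]; ring
      have h7 := (hzz (z k) (z' k)).le
      have h8 : |e k| ≤ (m : ℤ) * |((c k : ℕ) : ℤ) - ((c' k : ℕ) : ℤ)| + m := by
        rw [h6]
        refine (abs_add_le _ _).trans ?_
        rw [abs_mul, Nat.abs_cast]
        linarith
      have h9 : ((|e k| : ℤ) : ℝ) ≤ (((m : ℤ) * |((c k : ℕ) : ℤ) - ((c' k : ℕ) : ℤ)| + m : ℤ) : ℝ) := by
        exact_mod_cast h8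
      push_cast at h9
      exact h9
    rw [sum_add_distrib, ← mul_sum, sum_const, card_univ, Fintype.card_fin, nsmul_eq_mul] at h5
    simp_rw [thr_dist]
    have h6 : (m : ℝ) * (n * (E + ε)) < m * ∑ k, |((c k : ℕ) : ℝ) - ((c' k : ℕ) : ℝ)| := by
      have h7 : (n : ℝ) * m * (E + 1 + ε) = m * (n * (E + ε)) + n * m := by ring
      linarith
    exact (lt_of_mul_lt_mul_left h6 hmR.le).le
  have hcard : (Fintype.card (ZMod N) : ℝ) ≤ ((m ^ n : ℕ) : ℝ) *
      Real.exp (n * (s.h - s.S - ε / 2)) := by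
    rw [ZMod.card, ← Real.log_le_log_iff hNR (by positivity), Real.log_mul (by positivity)
      (Real.exp_pos _).ne', Real.log_exp]
    push_cast
    rw [Real.log_pow]
    refine hlog.trans ?_
    nlinarith
  have key := hn0 n hn1 (ZMod N) SS (m ^ n) (n * (E + ε)) (by positivity) hcov hdist hcard
  have := le_of_mul_le_mul_left key hnR
  linarith

/-- Short vectors, constant `κ`. -/
theorem lattice {R : ℕ} (st : State R) {ε : ℝ} (hε : 0 < ε) :
    ∃ (n0 : ℕ) (B : ℝ), ∀ (ι : Type) [Fintype ι] (N : ℕ) (W : ι → ℤ), n0 ≤ Fintype.card ι → 0 < N →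
      B * Fintype.card ι ≤ Real.log N →
      ∃ e : ι → ℤ, e ≠ 0 ∧ (N : ℤ) ∣ ∑ i, W i * e i ∧
        ∑ i, |(e i : ℝ)| ≤ (st.κ + ε) * Fintype.card ι * Real.exp (Real.log N / Fintype.card ι) := by
  obtain ⟨q, s, hs⟩ := st.exists_site (ε := ε / 2) (by positivity)
  have hE : 0 ≤ s.E (thr q) := Pool.Agent.H785R2.LP.E_nonneg s _
  set E := s.E (thr q) with hEdef
  set κ := st.κ with hκ
  have hκ0 : 0 < κ + ε / 2 := by
    refine lt_of_lt_of_le ?_ hs
    positivity
  -- choose the small parameters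
  set a := Real.exp (s.S - s.h) with ha
  have ha0 : 0 < a := Real.exp_pos _
  have hcont : Tendsto (fun η : ℝ => a * Real.exp η * (1 + η) * (E + 1 + η)) (𝓝 0)
      (𝓝 (a * Real.exp 0 * (1 + 0) * (E + 1 + 0))) := by
    apply Continuous.tendsto
    fun_prop
  have hlt : a * Real.exp 0 * (1 + 0) * (E + 1 + 0) < κ + ε := by
    rw [Real.exp_zero]
    have : a * 1 * (1 + 0) * (E + 1 + 0) = a * (E + 1) := by ring
    rw [this]
    linarith
  have hev := hcont.eventually (gt_mem_nhds hlt)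
  obtain ⟨δ, hδ0, hδ⟩ := Metric.eventually_nhds_iff.mp hev
  set η := δ / 2 with hη
  have hη0 : 0 < η := by positivity
  have hη1 := hδ (y := η) (by rw [Real.dist_eq, sub_zero, abs_of_pos hη0]; linarith)
  obtain ⟨n0, hn0⟩ := lattice_of_site s hη0
  refine ⟨max n0 1, Real.log (1 / η) + (s.h - s.S - η), ?_⟩
  intro ι _ N W hn hN hB
  set n := Fintype.card ι with hnn
  have hn1 : n0 ≤ n := (le_max_left _ _).trans hn
  have hn2 : 1 ≤ n := (le_max_right _ _).trans hn
  have hnR : (0 : ℝ) < n := by exact_mod_cast hn2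
  set T := Real.log N / n with hT
  have hTn : Real.log N = n * T := by rw [hT]; field_simp
  have hTB : Real.log (1 / η) + (s.h - s.S - η) ≤ T := by
    rw [hTn, mul_comm (n : ℝ) T] at hB
    exact le_of_mul_le_mul_right hB hnR
  set x := Real.exp (T - (s.h - s.S - η)) with hx
  have hx0 : 0 < x := Real.exp_pos _
  have hx1 : 1 / η ≤ x := by
    rw [hx, ← Real.log_le_iff_le_exp (by positivity)]
    linarith
  have hηx : 1 ≤ η * x := by
    rw [div_le_iff₀ hη0] at hx1
    linarith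
  set m := ⌈x⌉₊ with hm
  have hm1 : x ≤ m := Nat.le_ceil _
  have hm2 : (m : ℝ) < x + 1 := Nat.ceil_lt_add_one hx0.le
  have hm0 : 0 < m := Nat.ceil_pos.mpr hx0
  have hmR : (0 : ℝ) < m := by exact_mod_cast hm0
  obtain ⟨e, he, hdvd, hle⟩ := hn0 ι N m W hn1 hN hm0 (by
    rw [← hnn, hTn]
    refine mul_le_mul_of_nonneg_left ?_ hnR.le
    have : T - (s.h - s.S - η) ≤ Real.log m := by
      rw [Real.le_log_iff_exp_le hmR]
      exact hm1
    linarith)
  refine ⟨e, he, hdvd, hle.trans ?_⟩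
  rw [← hnn]
  have h1 : (m : ℝ) ≤ (1 + η) * x := by linarith
  have h2 : x = a * Real.exp η * Real.exp T := by
    rw [hx, ha, ← Real.exp_add, ← Real.exp_add]
    congr 1; ring
  have h3 : 0 ≤ E + 1 + η := by positivity
  calc (n : ℝ) * m * (E + 1 + η) ≤ n * ((1 + η) * x) * (E + 1 + η) := by gcongr
    _ = (a * Real.exp η * (1 + η) * (E + 1 + η)) * n * Real.exp T := by rw [h2]; ring
    _ ≤ (κ + ε) * n * Real.exp T := by
        have := hη1.le
        gcongr

end Pool.Agent.TH871.L1
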