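import Pool.Agent.TH871.L1.G5
import Pool.Agent.TH871.L1.Lat
import Pool.Agent.TH871.L1.Core

/-! The value of the constant of the rank five state. -/

open Finset

namespace Pool.Agent.TH871.L1

lemma log_le_of_sum {x y : ℝ} (hx : 0 < x) (hy : 0 ≤ y) (n : ℕ)
    (h : x ≤ ∑ i ∈ range n, y ^ i / (i.factorial : ℝ)) : Real.log x ≤ y := by
  rw [← Real.log_exp y]
  exact Real.log_le_log hx (h.trans (Real.sum_le_exp_of_nonneg hy n))

namespace G5

lemma val_P : 2 * (data.P 1 - data.P (-1)) = 650748937 / 1326917592 := by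
  show 2 * (pe lP 1 - pe lP (-1)) = _
  simp only [lP, pe]
  norm_num

lemma val_Q : data.Q 1 - data.Q (-1) = 15525 / 9196 := by
  show pe lQ 1 - pe lQ (-1) = _
  simp only [lQ, pe]
  norm_num

lemma val_Lam : data.Lam 1 - data.Lam (-1) =
    -311522512820493007850374379 / 8264789053490965800903081984 := by
  show pe lLam 1 - pe lLam (-1) = _
  simp only [lLam, pe]
  norm_num

lemma val_S : ∑ a, Real.negMulLog (data.s a ^ 2 / data.Z) =
    Real.log 5016 - (4761 * Real.log 4761 + 225 * Real.log 225 + 25 * Real.log 25 +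
      4 * Real.log 4) / 5016 := by
  show ∑ a, Real.negMulLog (sv a ^ 2 / 5016) = _
  rw [sum5, sv0, sv1, sv2, sv3, sv4]
  unfold Real.negMulLog
  have h : ∀ x : ℝ, 0 < x → Real.log (x / 5016) = Real.log x - Real.log 5016 := fun x hx =>
    Real.log_div hx.ne' (by norm_num)
  rw [h (69 ^ 2) (by norm_num), h (15 ^ 2) (by norm_num), h (5 ^ 2) (by norm_num),
    h (2 ^ 2) (by norm_num), h (1 ^ 2) (by norm_num)]
  norm_num
  ring

/-- the constant beats `32 / (6.84 ^ 2 * e)` -/
theorem bound : (171 / 25 : ℝ) ^ 2 * (Real.exp (∑ a, Real.negMulLog (data.s a ^ 2 / data.Z) -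
    (data.Phi 1 - data.Phi (-1))) * (2 * (data.P 1 - data.P (-1)))) * Real.exp 1 < 32 := by
  have l2l : 0.6931471803 < Real.log 2 := Real.log_two_gt_d9
  have l2u : Real.log 2 < 0.6931471808 := Real.log_two_lt_d9
  have l32 : Real.log (3 / 2 : ℝ) ≤ 40546511 / 100000000 :=
    log_le_of_sum (by norm_num) (by norm_num) 9 (by norm_num [sum_range_succ, Nat.factorial])
  have l118 : Real.log (11 / 8 : ℝ) ≤ 15922687 / 50000000 :=
    log_le_of_sum (by norm_num) (by norm_num) 8 (by norm_num [sum_range_succ, Nat.factorial])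
  have l138 : Real.log (13 / 8 : ℝ) ≤ 24275391 / 50000000 :=
    log_le_of_sum (by norm_num) (by norm_num) 9 (by norm_num [sum_range_succ, Nat.factorial])
  have l1916 : Real.log (19 / 16 : ℝ) ≤ 8592513 / 50000000 :=
    log_le_of_sum (by norm_num) (by norm_num) 7 (by norm_num [sum_range_succ, Nat.factorial])
  have l85 : Real.log (8 / 5 : ℝ) ≤ 47000363 / 100000000 :=
    log_le_of_sum (by norm_num) (by norm_num) 10 (by norm_num [sum_range_succ, Nat.factorial])
  have l3223 : Real.log (32 / 23 : ℝ) ≤ 33024169 / 100000000 :=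
    log_le_of_sum (by norm_num) (by norm_num) 8 (by norm_num [sum_range_succ, Nat.factorial])
  have lE : Real.log (650748937 / 331729398 : ℝ) ≤ 13476087 / 20000000 :=
    log_le_of_sum (by norm_num) (by norm_num) 10 (by norm_num [sum_range_succ, Nat.factorial])
  -- logarithms of the primes
  have e8 : Real.log 8 = 3 * Real.log 2 := by
    rw [show (8 : ℝ) = 2 ^ 3 by norm_num, Real.log_pow]; push_cast; ring
  have e16 : Real.log 16 = 4 * Real.log 2 := by
    rw [show (16 : ℝ) = 2 ^ 4 by norm_num, Real.log_pow]; push_cast; ring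
  have e32 : Real.log 32 = 5 * Real.log 2 := by
    rw [show (32 : ℝ) = 2 ^ 5 by norm_num, Real.log_pow]; push_cast; ring
  rw [Real.log_div (by norm_num) (by norm_num)] at l32 l118 l138 l1916 l85 l3223
  have hE : Real.log (650748937 / 1326917592 : ℝ) =
      Real.log (650748937 / 331729398 : ℝ) - 2 * Real.log 2 := by
    rw [show (650748937 / 1326917592 : ℝ) = 650748937 / 331729398 / 2 ^ 2 by norm_num,
      Real.log_div (by norm_num) (by norm_num), Real.log_pow]
    push_cast; ring
  have h5016 : Real.log 5016 = 3 * Real.log 2 + Real.log 3 + Real.log 11 + Real.log 19 := by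
    rw [show (5016 : ℝ) = 8 * 3 * 11 * 19 by norm_num, Real.log_mul (by norm_num) (by norm_num),
      Real.log_mul (by norm_num) (by norm_num), Real.log_mul (by norm_num) (by norm_num), e8]
  have h4761 : Real.log 4761 = 2 * Real.log 3 + 2 * Real.log 23 := by
    rw [show (4761 : ℝ) = 3 ^ 2 * 23 ^ 2 by norm_num, Real.log_mul (by norm_num) (by norm_num),
      Real.log_pow, Real.log_pow]
    push_cast; ring
  have h225 : Real.log 225 = 2 * Real.log 3 + 2 * Real.log 5 := by
    rw [show (225 : ℝ) = 3 ^ 2 * 5 ^ 2 by norm_num, Real.log_mul (by norm_num) (by norm_num),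
      Real.log_pow, Real.log_pow]
    push_cast; ring
  have h25 : Real.log 25 = 2 * Real.log 5 := by
    rw [show (25 : ℝ) = 5 ^ 2 by norm_num, Real.log_pow]
    push_cast; ring
  have h4 : Real.log 4 = 2 * Real.log 2 := by
    rw [show (4 : ℝ) = 2 ^ 2 by norm_num, Real.log_pow]
    push_cast; ring
  have h43 : Real.log (4 / 3) = 2 * Real.log 2 - Real.log 3 := by
    rw [Real.log_div (by norm_num) (by norm_num), h4]
  have h2625 : Real.log (26 / 25) = Real.log 2 + Real.log 13 - 2 * Real.log 5 := by
    rw [Real.log_div (by norm_num) (by norm_num), h25, show (26 : ℝ) = 2 * 13 by norm_num,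
      Real.log_mul (by norm_num) (by norm_num)]
  have hK : Real.log (171 / 25) = 2 * Real.log 3 + Real.log 19 - 2 * Real.log 5 := by
    rw [Real.log_div (by norm_num) (by norm_num), h25, show (171 : ℝ) = 3 ^ 2 * 19 by norm_num,
      Real.log_mul (by norm_num) (by norm_num), Real.log_pow]
    push_cast; ring
  rw [data.Phi_one, data.Phi_neg_one, val_P, val_S]
  have hc : data.c0 = 26 / 25 := rfl
  rw [hc]
  have hLam := val_Lam
  have hQ := val_Q
  set S := Real.log 5016 - (4761 * Real.log 4761 + 225 * Real.log 225 + 25 * Real.log 25 +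
      4 * Real.log 4) / 5016 with hS
  set A := S - (Real.log (4 / 3) - Real.log (26 / 25) - data.Lam 1 - 2 * Real.log 2 +
    2 * data.Q 1 - (-data.Lam (-1) + 2 * Real.log 2 + 2 * data.Q (-1))) with hA
  have key : 2 * Real.log (171 / 25) + (A + Real.log (650748937 / 1326917592)) + 1 <
      5 * Real.log 2 := by
    have hA' : A = S - Real.log (4 / 3) + Real.log (26 / 25) + (data.Lam 1 - data.Lam (-1)) +
        4 * Real.log 2 - 2 * (data.Q 1 - data.Q (-1)) := by rw [hA]; ring
    rw [hA', hLam, hQ, hS, hE, h5016, h4761, h225, h25, h4, h43, h2625, hK]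
    rw [e8] at l118 l138 l85
    rw [e16] at l1916
    rw [e32] at l3223
    norm_num at l2l l2u ⊢
    linarith
  have h32 : (32 : ℝ) = Real.exp (5 * Real.log 2) := by
    rw [← e32, Real.exp_log (by norm_num)]
  rw [h32]
  calc (171 / 25 : ℝ) ^ 2 * (Real.exp A * (650748937 / 1326917592)) * Real.exp 1
      = Real.exp (2 * Real.log (171 / 25) + (A + Real.log (650748937 / 1326917592)) + 1) := by
        rw [Real.exp_add, Real.exp_add, Real.exp_add, Real.exp_log (by norm_num : (0 : ℝ) <
          650748937 / 1326917592)]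
        congr 2
        rw [show 2 * Real.log (171 / 25 : ℝ) = Real.log ((171 / 25 : ℝ) ^ 2) by
          rw [Real.log_pow]; push_cast; ring, Real.exp_log (by norm_num)]
    _ < Real.exp (5 * Real.log 2) := Real.exp_lt_exp.mpr key

end G5

open Pool.Agent.H390R2 in
/-- good abc triples up to the constant `6.84` -/
theorem good_triples {K : ℝ} (hK0 : 0 ≤ K) (hK : K ≤ 171 / 25) (X0 : ℝ) :
    ∃ a b c : ℕ, IsABCTriple a b c ∧ X0 < Real.log c ∧
      K * √(Real.log c) / Real.log (Real.log c) <
        Real.log c - Real.log (rad (a * b * c)) := by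
  obtain ⟨st, hst⟩ := G5.data.exists_state
  have hb := G5.bound
  rw [← hst] at hb
  have hκ : 0 < st.κ := by
    rw [hst, G5.val_P]
    positivity
  refine triples hK0 hκ (fun ε hε => lattice st hε) ?_ X0
  refine lt_of_le_of_lt ?_ hb
  have := Real.exp_pos 1
  gcongr

end Pool.Agent.TH871.L1
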