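import Pool.Agent.TH871.L1.Povm

/-! Cells on a line: threshold functions and the site of a subdivision. -/

open Finset

namespace Pool.Agent.TH871.L1

open Pool.Agent.H390R2.LP

/-- threshold functions -/
noncomputable def thr (q : ℕ) (t x : Fin q) : ℝ := if t < x then 1 else 0

lemma thr_dist (q : ℕ) (x y : Fin q) :
    ∑ t, (thr q t x - thr q t y) ^ 2 = |(x : ℝ) - (y : ℝ)| := by
  wlog h : x ≤ y with H
  · have := H q y x (le_of_lt (not_le.mp h))
    rw [abs_sub_comm, ← this]
    exact sum_congr rfl fun t _ => by ring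
  have h1 : ∀ t, (thr q t x - thr q t y) ^ 2 = if t ∈ Finset.Ico x y then (1 : ℝ) else 0 := by
    intro t
    unfold thr
    by_cases h2 : t < x
    · have h3 : t < y := lt_of_lt_of_le h2 h
      have h4 : t ∉ Finset.Ico x y := fun hh => absurd (Finset.mem_Ico.mp hh).1 (not_le.mpr h2)
      rw [if_pos h2, if_pos h3, if_neg h4]; norm_num
    · by_cases h3 : t < y
      · rw [if_neg h2, if_pos h3, if_pos (Finset.mem_Ico.mpr ⟨not_lt.mp h2, h3⟩)]; norm_num
      · have h4 : t ∉ Finset.Ico x y := fun hh => absurd (Finset.mem_Ico.mp hh).2 h3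
        rw [if_neg h2, if_neg h3, if_neg h4]; norm_num
  simp_rw [h1]
  rw [Finset.sum_ite_mem, Finset.univ_inter, Finset.sum_const, Fin.card_Ico, nsmul_eq_mul, mul_one,
    Nat.cast_sub (by exact_mod_cast h), abs_sub_comm, abs_of_nonneg]
  rw [sub_nonneg]
  exact_mod_cast h

lemma tele (q : ℕ) (N : ℕ → ℝ) (t : Fin q) :
    ∑ x : Fin q, thr q t x * (N (x + 1) - N x) = N q - N (t + 1) := by
  set g : ℕ → ℝ := fun i => if (t : ℕ) < i then N i else N (t + 1) with hg
  have h1 : ∀ x : Fin q, thr q t x * (N (x + 1) - N x) = g (x + 1) - g x := by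
    intro x
    unfold thr
    simp only [hg]
    by_cases h : t < x
    · have h2 : (t : ℕ) < x := h
      rw [if_pos h, if_pos h2, if_pos (by omega)]
      ring
    · have h2 : ¬ (t : ℕ) < x := h
      rw [if_neg h, if_neg h2]
      by_cases h3 : (t : ℕ) < x + 1
      · rw [if_pos h3]
        have : (x : ℕ) = t := by omega
        rw [this]; ring
      · rw [if_neg h3]; ring
  simp_rw [h1]
  rw [Fin.sum_univ_eq_sum_range (fun i => g (i + 1) - g i), Finset.sum_range_sub]
  simp only [hg]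
  rw [if_pos t.2, if_neg (by omega)]

/-- the site of a subdivision -/
theorem cells {R q : ℕ} (N : ℕ → Fin R → Fin R → ℝ) (hs : ∀ j a b, N j a b = N j b a)
    (hN0 : ∀ a b, N 0 a b = 0) (hNq : ∀ a b, N q a b = if a = b then 1 else 0)
    (hN : ∀ j < q, ∀ α : Fin R → ℝ, 0 ≤ ∑ a, ∑ b, α a * α b * (N (j + 1) a b - N j a b))
    (lam : Fin R → ℝ) (h0 : ∀ a, 0 ≤ lam a) (h1 : ∑ a, lam a = 1) :
    ∃ s : Site (Fin q × Fin R) (Fin q), s.S = ∑ a, Real.negMulLog (lam a) ∧
      ∑ j ∈ range q, Real.negMulLog (∑ a, lam a * (N (j + 1) a a - N j a a)) ≤ s.h ∧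
      s.E (thr q) = 2 * ∑ j ∈ range q, (∑ a, lam a * (1 - N (j + 1) a a)
          - ∑ a, ∑ b, √(lam a * lam b) * ((if a = b then 1 else 0) - N (j + 1) a b) ^ 2) := by
  obtain ⟨s, s1, s2, s3⟩ := povm (X := Fin q) (R := R) (fun x a b => N (x + 1) a b - N x a b)
    (fun x a b => by rw [hs (x + 1) a b, hs x a b]) (fun x α => hN x x.2 α) (by
      intro a b
      rw [Fin.sum_univ_eq_sum_range (fun i => N (i + 1) a b - N i a b),
        Finset.sum_range_sub (fun i => N i a b), hN0, hNq, sub_zero]) lam h0 h1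
  refine ⟨s, s1, ?_, ?_⟩
  · rw [Fin.sum_univ_eq_sum_range (fun j => Real.negMulLog (∑ a, lam a * (N (j + 1) a a - N j a a)))]
      at s2
    exact s2
  · rw [s3]
    congr 1
    rw [← Fin.sum_univ_eq_sum_range (fun j => (∑ a, lam a * (1 - N (j + 1) a a)
          - ∑ a, ∑ b, √(lam a * lam b) * ((if a = b then 1 else 0) - N (j + 1) a b) ^ 2))]
    refine sum_congr rfl fun t _ => ?_
    have h2 : ∀ a b, ∑ x : Fin q, thr q t x * (N (x + 1) a b - N x a b) =
        (if a = b then 1 else 0) - N (t + 1) a b := by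
      intro a b
      rw [tele q (fun i => N i a b) t, hNq]
    have h3 : ∀ a, ∑ x : Fin q, thr q t x ^ 2 * (N (x + 1) a a - N x a a) =
        1 - N (t + 1) a a := by
      intro a
      have h4 := h2 a a
      rw [if_pos rfl] at h4
      rw [← h4]
      refine sum_congr rfl fun x _ => ?_
      unfold thr
      split_ifs <;> simp
    simp_rw [h2, h3]

end Pool.Agent.TH871.L1
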