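import Pool.Agent.TH871.L1.Cells

/-! Discretisation of a continuous state of finite rank on the line. -/

open Finset Filter Topology

namespace Pool.Agent.TH871.L1

open Pool.Agent.H390R2.LP

/-- a continuous state: `ψ a` orthonormal, `F a b` the primitive of `ψ a * ψ b` -/
structure State (R : ℕ) where
  lam : Fin R → ℝ
  ψ : Fin R → ℝ → ℝ
  F : Fin R → Fin R → ℝ → ℝ
  C : ℝ
  P : ℝ → ℝ
  P0 : ℝ
  P1 : ℝ
  p : ℝ → ℝ
  Φ : ℝ → ℝ
  φ : ℝ → ℝ
  Φ0 : ℝ
  Φ1 : ℝ
  lam0 : ∀ a, 0 ≤ lam a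
  lam1 : ∑ a, lam a = 1
  hC : 0 ≤ C
  hs : ∀ a b x, F a b x = F b a x
  hF : ∀ a b x, HasDerivAt (F a b) (ψ a x * ψ b x) x
  hF0 : ∀ a b, Tendsto (F a b) atBot (𝓝 0)
  hF1 : ∀ a b, Tendsto (F a b) atTop (𝓝 (if a = b then 1 else 0))
  hP : ∀ x, HasDerivAt P (∑ a, lam a * (1 - F a a x)
          - ∑ a, ∑ b, √(lam a * lam b) * ((if a = b then 1 else 0) - F a b x) ^ 2) x
  hLip : ∀ x y, |(∑ a, lam a * (1 - F a a x)
          - ∑ a, ∑ b, √(lam a * lam b) * ((if a = b then 1 else 0) - F a b x) ^ 2) -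
          (∑ a, lam a * (1 - F a a y)
          - ∑ a, ∑ b, √(lam a * lam b) * ((if a = b then 1 else 0) - F a b y) ^ 2)| ≤ C * |x - y|
  hP0 : Tendsto P atBot (𝓝 P0)
  hP1 : Tendsto P atTop (𝓝 P1)
  hp : ∀ x, p x = ∑ a, lam a * ψ a x ^ 2
  p0 : ∀ x, 0 < p x
  hpL : ∀ x y, |Real.log (p x) - Real.log (p y)| ≤ C * |x - y|
  hΦ : ∀ x, HasDerivAt Φ (φ x) x
  hφ : ∀ x, φ x ≤ p x * (-Real.log (p x))
  hΦ0 : Tendsto Φ atBot (𝓝 Φ0)
  hΦ1 : Tendsto Φ atTop (𝓝 Φ1)
  tail0 : ∀ x, 0 ≤ x → ∑ a, lam a * F a a (-x) ≤ C * Real.exp (-x)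
  tail1 : ∀ x, 0 ≤ x → 1 - ∑ a, lam a * F a a x ≤ C * Real.exp (-x)

namespace State

variable {R : ℕ} (st : State R)

/-- energy density -/
noncomputable def G (x : ℝ) : ℝ := ∑ a, st.lam a * (1 - st.F a a x)
          - ∑ a, ∑ b, √(st.lam a * st.lam b) * ((if a = b then 1 else 0) - st.F a b x) ^ 2

/-- distribution function -/
noncomputable def V (x : ℝ) : ℝ := ∑ a, st.lam a * st.F a a x

lemma hV (x : ℝ) : HasDerivAt st.V (st.p x) x := by
  have h := HasDerivAt.fun_sum (u := univ) (A := fun a y => st.lam a * st.F a a y)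
    (A' := fun a => st.lam a * (st.ψ a x * st.ψ a x)) (x := x)
    fun a _ => (st.hF a a x).const_mul (st.lam a)
  rw [st.hp x]
  convert! h using 1
  exact sum_congr rfl fun a _ => by ring

lemma quad_mono (α : Fin R → ℝ) : Monotone fun x => ∑ a, ∑ b, α a * α b * st.F a b x := by
  have hd : ∀ x, HasDerivAt (fun x => ∑ a, ∑ b, α a * α b * st.F a b x)
      ((∑ a, α a * st.ψ a x) ^ 2) x := by
    intro x
    have h := HasDerivAt.fun_sum (u := univ) (A := fun a y => ∑ b, α a * α b * st.F a b y)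
      (A' := fun a => ∑ b, α a * α b * (st.ψ a x * st.ψ b x)) (x := x)
      fun a _ => HasDerivAt.fun_sum (u := univ) (A := fun b y => α a * α b * st.F a b y)
      (A' := fun b => α a * α b * (st.ψ a x * st.ψ b x)) (x := x)
      fun b _ => (st.hF a b x).const_mul (α a * α b)
    convert! h using 1
    rw [sq, sum_mul_sum]
    exact sum_congr rfl fun a _ => sum_congr rfl fun b _ => by ring
  refine monotone_of_deriv_nonneg (fun x => (hd x).differentiableAt) fun x => ?_
  rw [(hd x).deriv]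
  positivity

lemma quad_nonneg (α : Fin R → ℝ) (x : ℝ) : 0 ≤ ∑ a, ∑ b, α a * α b * st.F a b x := by
  refine (st.quad_mono α).le_of_tendsto (a := 0) ?_ x
  have : Tendsto (fun x => ∑ a, ∑ b, α a * α b * st.F a b x) atBot
      (𝓝 (∑ a : Fin R, ∑ b : Fin R, α a * α b * 0)) :=
    tendsto_finsetSum _ fun a _ => tendsto_finsetSum _ fun b _ => (st.hF0 a b).const_mul _
  simpa using this

lemma quad_le (α : Fin R → ℝ) (x : ℝ) : ∑ a, ∑ b, α a * α b * st.F a b x ≤
    ∑ a, ∑ b, α a * α b * (if a = b then 1 else 0) := by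
  refine (st.quad_mono α).ge_of_tendsto ?_ x
  exact tendsto_finsetSum _ fun a _ => tendsto_finsetSum _ fun b _ => (st.hF1 a b).const_mul _

lemma V_nonneg (x : ℝ) : 0 ≤ st.V x := by
  refine sum_nonneg fun a _ => mul_nonneg (st.lam0 a) ?_
  have := st.quad_nonneg (fun b => if b = a then 1 else 0) x
  simpa using this

lemma V_le (x : ℝ) : st.V x ≤ 1 := by
  rw [← st.lam1]
  refine sum_le_sum fun a _ => mul_le_of_le_one_right (st.lam0 a) ?_
  have := st.quad_le (fun b => if b = a then 1 else 0) x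
  simpa using this

lemma V_mono : Monotone st.V := by
  refine monotone_of_deriv_nonneg (fun x => (st.hV x).differentiableAt) fun x => ?_
  rw [(st.hV x).deriv]
  exact (st.p0 x).le

/-- entropy of one cell -/
lemma cell_entropy {y δ : ℝ} (hδ : 0 < δ) :
    st.Φ (y + δ) - st.Φ y - (Real.log δ + st.C * δ) * (st.V (y + δ) - st.V y) ≤
      Real.negMulLog (st.V (y + δ) - st.V y) := by
  have hcV : ContinuousOn st.V (Set.Icc y (y + δ)) :=
    fun x _ => (st.hV x).continuousAt.continuousWithinAt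
  obtain ⟨ξ, hξ, hξ2⟩ := exists_hasDerivAt_eq_slope st.V st.p (by linarith : y < y + δ) hcV
    fun x _ => st.hV x
  have hslope : st.V (y + δ) - st.V y = δ * st.p ξ := by
    rw [hξ2, add_sub_cancel_left]; field_simp
  have hpξ := st.p0 ξ
  set c := Real.log (st.p ξ) - st.C * δ with hc
  have hd : ∀ x, HasDerivAt (fun x => st.Φ x + c * st.V x) (st.φ x + c * st.p x) x :=
    fun x => (st.hΦ x).add ((st.hV x).const_mul c)
  have hanti : AntitoneOn (fun x => st.Φ x + c * st.V x) (Set.Icc y (y + δ)) := by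
    refine antitoneOn_of_deriv_nonpos (convex_Icc _ _)
      (fun x _ => (hd x).continuousAt.continuousWithinAt)
      (fun x _ => (hd x).differentiableAt.differentiableWithinAt) fun x hx => ?_
    rw [interior_Icc] at hx
    rw [(hd x).deriv]
    have h1 := st.hφ x
    have h2 := st.hpL x ξ
    have h3 : |x - ξ| ≤ δ := by
      rw [abs_le]
      constructor <;> linarith [hx.1, hx.2, hξ.1, hξ.2]
    have h4 : Real.log (st.p ξ) - Real.log (st.p x) ≤ st.C * δ := by
      have h5 := (abs_le.mp h2).1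
      have h6 := mul_le_mul_of_nonneg_left h3 st.hC
      linarith
    have h7 : st.p x * (-Real.log (st.p x) + c) ≤ 0 :=
      mul_nonpos_of_nonneg_of_nonpos (st.p0 x).le (by rw [hc]; linarith)
    nlinarith
  have h8 := hanti (Set.left_mem_Icc.mpr (by linarith)) (Set.right_mem_Icc.mpr (by linarith))
    (by linarith : y ≤ y + δ)
  simp only at h8
  have h9 : Real.negMulLog (st.V (y + δ) - st.V y) =
      -(Real.log δ + Real.log (st.p ξ)) * (st.V (y + δ) - st.V y) := by
    conv_lhs => rw [hslope]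
    unfold Real.negMulLog
    rw [Real.log_mul hδ.ne' hpξ.ne', ← hslope]
    ring
  rw [h9]
  have : (Real.log (st.p ξ) - st.C * δ) * (st.V (y + δ) - st.V y) ≤
      -(st.Φ (y + δ) - st.Φ y) := by rw [← hc]; linarith
  linarith

/-- energy of one cell -/
lemma cell_energy {y δ : ℝ} (hδ : 0 < δ) :
    δ * st.G y ≤ st.P (y + δ) - st.P y + st.C * δ ^ 2 := by
  have hcP : ContinuousOn st.P (Set.Icc y (y + δ)) :=
    fun x _ => (st.hP x).continuousAt.continuousWithinAt
  obtain ⟨ξ, hξ, hξ2⟩ := exists_hasDerivAt_eq_slope st.P st.G (by linarith : y < y + δ) hcP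
    fun x _ => st.hP x
  have hslope : st.P (y + δ) - st.P y = δ * st.G ξ := by
    rw [hξ2, add_sub_cancel_left]; field_simp
  rw [hslope]
  have h2 : |st.G y - st.G ξ| ≤ st.C * |y - ξ| := st.hLip y ξ
  have h3 : |y - ξ| ≤ δ := by
    rw [abs_le]
    constructor <;> linarith [hξ.1, hξ.2]
  have h4 : st.G y - st.G ξ ≤ st.C * δ :=
    (le_abs_self _).trans (h2.trans (mul_le_mul_of_nonneg_left h3 st.hC))
  nlinarith

/-- the cumulative matrices of the subdivision -/
noncomputable def NN (y δ : ℝ) (m : ℕ) (j : ℕ) (a b : Fin R) : ℝ :=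
  match j with
  | 0 => 0
  | i + 1 => if i ≤ m then st.F a b (y + i * δ) else (if a = b then 1 else 0)

theorem subdivide {y δ : ℝ} (hδ : 0 < δ) (m : ℕ) :
    ∃ s : Site (Fin (m + 2) × Fin R) (Fin (m + 2)), s.S = ∑ a, Real.negMulLog (st.lam a) ∧
      st.Φ (y + m * δ) - st.Φ y - (Real.log δ + st.C * δ) * (st.V (y + m * δ) - st.V y) ≤ s.h ∧
      δ * s.E (thr (m + 2)) ≤
        2 * (st.P (y + (m + 1 : ℕ) * δ) - st.P y + st.C * ((m + 1 : ℕ) * δ ^ 2)) := by
  obtain ⟨s, s1, s2, s3⟩ := cells (q := m + 2) (st.NN y δ m) (by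
      intro j a b
      rcases j with _ | i
      · rfl
      · simp only [NN]
        split_ifs with h1 h2 h3 h3
        · exact st.hs a b _
        · rfl
        · exact absurd h2.symm h3
        · exact absurd h3.symm h2
        · rfl) (fun a b => rfl) (by
      intro a b
      simp only [NN]
      rw [if_neg (by omega)]) (by
      intro j hj α
      have hsplit : ∀ (A B : Fin R → Fin R → ℝ), ∑ a, ∑ b, α a * α b * (A a b - B a b) =
          ∑ a, ∑ b, α a * α b * A a b - ∑ a, ∑ b, α a * α b * B a b := by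
        intro A B
        simp only [mul_sub, sum_sub_distrib]
      rw [hsplit, sub_nonneg]
      rcases j with _ | i
      · simp only [NN, zero_le, if_true, mul_zero, sum_const_zero]
        exact st.quad_nonneg α _
      · simp only [NN]
        have hi : i ≤ m := by omega
        simp only [hi, if_true]
        by_cases h2 : i + 1 ≤ m
        · simp only [h2, if_true]
          refine st.quad_mono α ?_
          push_cast
          nlinarith
        · simp only [h2, if_false]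
          exact st.quad_le α _) st.lam st.lam0 st.lam1
  refine ⟨s, s1, ?_, ?_⟩
  · refine le_trans ?_ s2
    -- rewrite the cell probabilities
    have hv : ∀ j, ∑ a, st.lam a * (st.NN y δ m (j + 1) a a - st.NN y δ m j a a) =
        ∑ a, st.lam a * st.NN y δ m (j + 1) a a - ∑ a, st.lam a * st.NN y δ m j a a := by
      intro j
      simp only [mul_sub, sum_sub_distrib]
    simp_rw [hv]
    have hV1 : ∀ i ≤ m, ∑ a, st.lam a * st.NN y δ m (i + 1) a a = st.V (y + i * δ) := by
      intro i hi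
      simp only [NN, hi, if_true]
      rfl
    have hV0 : ∑ a, st.lam a * st.NN y δ m 0 a a = 0 := by simp [NN]
    have hVe : ∑ a, st.lam a * st.NN y δ m (m + 2) a a = 1 := by
      have hm : ¬ (m + 1 ≤ m) := by omega
      simp only [NN, if_true, hm, if_false, mul_one]
      exact st.lam1
    rw [Finset.sum_range_succ, Finset.sum_range_succ' _ m]
    rw [hVe, hV0, hV1 m le_rfl, hV1 0 (Nat.zero_le m)]
    have e1 : 0 ≤ Real.negMulLog (1 - st.V (y + m * δ)) :=
      Real.negMulLog_nonneg (by linarith [st.V_le (y + m * δ)]) (by linarith [st.V_nonneg (y + m * δ)])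
    have e2 : 0 ≤ Real.negMulLog (st.V (y + ((0 : ℕ) : ℝ) * δ) - 0) :=
      Real.negMulLog_nonneg (by linarith [st.V_nonneg (y + ((0 : ℕ) : ℝ) * δ)])
        (by linarith [st.V_le (y + ((0 : ℕ) : ℝ) * δ)])
    have e3 : ∀ k ∈ range m, st.Φ (y + (k + 1 : ℕ) * δ) - st.Φ (y + k * δ) -
        (Real.log δ + st.C * δ) * (st.V (y + (k + 1 : ℕ) * δ) - st.V (y + k * δ)) ≤
        Real.negMulLog (∑ a, st.lam a * st.NN y δ m (k + 1 + 1) a a -
          ∑ a, st.lam a * st.NN y δ m (k + 1) a a) := by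
      intro k hk
      rw [mem_range] at hk
      rw [hV1 (k + 1) hk, hV1 k (by omega)]
      have := st.cell_entropy (y := y + k * δ) hδ
      have e4 : y + (k : ℝ) * δ + δ = y + (k + 1 : ℕ) * δ := by push_cast; ring
      rwa [e4] at this
    have e5 := sum_le_sum e3
    rw [Finset.sum_sub_distrib, ← mul_sum,
      Finset.sum_range_sub (fun k => st.Φ (y + (k : ℕ) * δ)) m,
      Finset.sum_range_sub (fun k => st.V (y + (k : ℕ) * δ)) m] at e5
    have e6 : y + ((0 : ℕ) : ℝ) * δ = y := by push_cast; ring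
    rw [e6] at e5 e2
    rw [e6]
    linarith
  · rw [s3]
    have hG : ∀ i ≤ m, (∑ a, st.lam a * (1 - st.NN y δ m (i + 1) a a)
          - ∑ a, ∑ b, √(st.lam a * st.lam b) * ((if a = b then 1 else 0) -
            st.NN y δ m (i + 1) a b) ^ 2) = st.G (y + i * δ) := by
      intro i hi
      simp only [NN, hi, if_true]
      rfl
    have hlast : (∑ a, st.lam a * (1 - st.NN y δ m (m + 1 + 1) a a)
          - ∑ a, ∑ b, √(st.lam a * st.lam b) * ((if a = b then 1 else 0) -
            st.NN y δ m (m + 1 + 1) a b) ^ 2) = 0 := by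
      simp only [NN]
      simp
    rw [Finset.sum_range_succ, hlast, add_zero]
    have e1 : ∀ k ∈ range (m + 1), δ * (∑ a, st.lam a * (1 - st.NN y δ m (k + 1) a a)
          - ∑ a, ∑ b, √(st.lam a * st.lam b) * ((if a = b then 1 else 0) -
            st.NN y δ m (k + 1) a b) ^ 2) ≤
        st.P (y + (k + 1 : ℕ) * δ) - st.P (y + k * δ) + st.C * δ ^ 2 := by
      intro k hk
      rw [mem_range] at hk
      rw [hG k (by omega)]
      have := st.cell_energy (y := y + k * δ) hδ
      have e4 : y + (k : ℝ) * δ + δ = y + (k + 1 : ℕ) * δ := by push_cast; ring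
      rwa [e4] at this
    have e5 := sum_le_sum e1
    rw [← mul_sum, Finset.sum_add_distrib,
      Finset.sum_range_sub (fun k => st.P (y + (k : ℕ) * δ)) (m + 1), Finset.sum_const,
      card_range, nsmul_eq_mul] at e5
    have e6 : y + ((0 : ℕ) : ℝ) * δ = y := by push_cast; ring
    rw [e6] at e5
    linarith

/-- the constant of the state -/
noncomputable def κ : ℝ := Real.exp (∑ a, Real.negMulLog (st.lam a) - (st.Φ1 - st.Φ0)) *
  (2 * (st.P1 - st.P0))

theorem exists_site {ε : ℝ} (hε : 0 < ε) : ∃ (q : ℕ) (s : Site (Fin q × Fin R) (Fin q)),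
    Real.exp (s.S - s.h) * (s.E (thr q) + 1) ≤ st.κ + ε := by
  -- parameters: `k`, `δ = 1 / k ^ 2`, `y = -k`, `m = 2 k ^ 3`
  set S := ∑ a, Real.negMulLog (st.lam a) with hS
  set Hk : ℕ → ℝ := fun k => st.Φ k - st.Φ (-k) - 4 * st.C * (Real.log k * Real.exp (-k)) -
    st.C * (1 / (k : ℝ) ^ 2) with hHk
  set Ek : ℕ → ℝ := fun k => 2 * (st.P (k + 1 / (k : ℝ) ^ 2) - st.P (-k) +
    st.C * (2 / k + 1 / (k : ℝ) ^ 4)) + 1 / (k : ℝ) ^ 2 with hEk
  have t0 : Tendsto (fun k : ℕ => (k : ℝ)) atTop atTop := tendsto_natCast_atTop_atTop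
  have t1 : Tendsto (fun k : ℕ => 1 / (k : ℝ) ^ 2) atTop (𝓝 0) := by
    have := (tendsto_pow_atTop (α := ℝ) two_ne_zero).comp t0
    exact tendsto_const_nhds.div_atTop this
  have t2 : Tendsto (fun k : ℕ => 1 / (k : ℝ) ^ 4) atTop (𝓝 0) := by
    have := (tendsto_pow_atTop (α := ℝ) four_ne_zero).comp t0
    exact tendsto_const_nhds.div_atTop this
  have t3 : Tendsto (fun k : ℕ => 2 / (k : ℝ)) atTop (𝓝 0) := tendsto_const_nhds.div_atTop t0
  have t4 : Tendsto (fun k : ℕ => Real.log k * Real.exp (-k)) atTop (𝓝 0) := by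
    have h1 : Tendsto (fun x : ℝ => x ^ 1 * Real.exp (-x)) atTop (𝓝 0) :=
      Real.tendsto_pow_mul_exp_neg_atTop_nhds_zero 1
    have h2 := h1.comp t0
    refine squeeze_zero' ?_ ?_ h2
    · filter_upwards [eventually_ge_atTop 1] with k hk
      have : (1 : ℝ) ≤ k := by exact_mod_cast hk
      have := Real.log_nonneg this
      positivity
    · filter_upwards [eventually_ge_atTop 1] with k hk
      have h3 : (0 : ℝ) < k := by exact_mod_cast hk
      have h4 := Real.log_le_sub_one_of_pos h3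
      simp only [Function.comp_apply, pow_one]
      have := Real.exp_pos (-(k : ℝ))
      nlinarith
  have tneg : Tendsto (fun k : ℕ => -(k : ℝ)) atTop atBot := tendsto_neg_atTop_atBot.comp t0
  have tH : Tendsto Hk atTop (𝓝 (st.Φ1 - st.Φ0)) := by
    have h1 := (((st.hΦ1.comp t0).sub (st.hΦ0.comp tneg)).sub (t4.const_mul (4 * st.C))).sub
      (t1.const_mul st.C)
    simp only [mul_zero, sub_zero] at h1
    exact h1
  have tP : Tendsto (fun k : ℕ => (k : ℝ) + 1 / (k : ℝ) ^ 2) atTop atTop :=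
    tendsto_atTop_mono (fun k => le_add_of_nonneg_right (by positivity)) t0
  have tE : Tendsto Ek atTop (𝓝 (2 * (st.P1 - st.P0))) := by
    have h1 := ((((st.hP1.comp tP).sub (st.hP0.comp tneg)).add
      ((t3.add t2).const_mul st.C)).const_mul 2).add t1
    simp only [mul_zero, add_zero] at h1
    exact h1
  have tT : Tendsto (fun k => Real.exp (S - Hk k) * Ek k) atTop (𝓝 st.κ) :=
    ((Real.continuous_exp.tendsto _).comp (tH.const_sub S)).mul tE
  have hev := tT.eventually (gt_mem_nhds (show st.κ < st.κ + ε by linarith))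
  obtain ⟨k, hk, hk1⟩ := (hev.and (eventually_ge_atTop 1)).exists
  have hk0 : (0 : ℝ) < k := by exact_mod_cast hk1
  have hk1' : (1 : ℝ) ≤ k := by exact_mod_cast hk1
  set δ : ℝ := 1 / (k : ℝ) ^ 2 with hδ
  have hδ0 : 0 < δ := by positivity
  obtain ⟨s, s1, s2, s3⟩ := st.subdivide (y := -(k : ℝ)) hδ0 (2 * k ^ 3)
  refine ⟨2 * k ^ 3 + 2, s, ?_⟩
  have ey : -(k : ℝ) + ((2 * k ^ 3 : ℕ) : ℝ) * δ = k := by
    rw [hδ]; push_cast; field_simp; ring
  have ey2 : -(k : ℝ) + ((2 * k ^ 3 + 1 : ℕ) : ℝ) * δ = k + 1 / (k : ℝ) ^ 2 := by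
    rw [hδ]; push_cast; field_simp; ring
  have em : ((2 * k ^ 3 + 1 : ℕ) : ℝ) * δ ^ 2 = 2 / k + 1 / (k : ℝ) ^ 4 := by
    rw [hδ]; push_cast; field_simp
  rw [ey] at s2
  rw [ey2, em] at s3
  have hlogδ : Real.log δ = -2 * Real.log k := by
    rw [hδ, one_div, Real.log_inv, Real.log_pow]; push_cast; ring
  have hlogk : 0 ≤ Real.log k := Real.log_nonneg hk1'
  have hV1 : st.V k ≤ 1 := st.V_le _
  have hV0 : 0 ≤ st.V (-k) := st.V_nonneg _
  have hV2 : st.V (-k) ≤ st.C * Real.exp (-k) := st.tail0 k hk0.le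
  have hV3 : 1 - st.V k ≤ st.C * Real.exp (-k) := st.tail1 k hk0.le
  have hV4 : st.V (-k) ≤ st.V k := st.V_mono (by linarith)
  have hH : Hk k + 2 * Real.log k ≤ s.h := by
    refine le_trans ?_ s2
    rw [hlogδ]
    simp only [hHk]
    have e1 : st.C * δ * (st.V k - st.V (-k)) ≤ st.C * (1 / (k : ℝ) ^ 2) := by
      rw [← hδ]
      exact mul_le_of_le_one_right (mul_nonneg st.hC hδ0.le) (by linarith)
    have e2 : 2 * Real.log k * (1 - (st.V k - st.V (-k))) ≤
        2 * Real.log k * (2 * (st.C * Real.exp (-k))) := by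
      refine mul_le_mul_of_nonneg_left ?_ (by positivity)
      linarith
    nlinarith
  have hE : s.E (thr (2 * k ^ 3 + 2)) + 1 ≤ Ek k * (k : ℝ) ^ 2 := by
    have e1 : δ * (k : ℝ) ^ 2 = 1 := by rw [hδ]; field_simp
    have e2 := mul_le_mul_of_nonneg_right s3 (show (0 : ℝ) ≤ (k : ℝ) ^ 2 by positivity)
    have e3 : δ * s.E (thr (2 * k ^ 3 + 2)) * (k : ℝ) ^ 2 = s.E (thr (2 * k ^ 3 + 2)) := by
      calc _ = (δ * (k : ℝ) ^ 2) * s.E (thr (2 * k ^ 3 + 2)) := by ring
        _ = _ := by rw [e1, one_mul]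
    rw [e3] at e2
    simp only [hEk]
    rw [add_mul]
    have e4 : 1 / (k : ℝ) ^ 2 * (k : ℝ) ^ 2 = 1 := by rw [← hδ]; exact e1
    rw [e4]
    linarith
  have hEpos : 0 ≤ s.E (thr (2 * k ^ 3 + 2)) := Pool.Agent.H785R2.LP.E_nonneg s _
  calc Real.exp (s.S - s.h) * (s.E (thr (2 * k ^ 3 + 2)) + 1)
      ≤ Real.exp (S - Hk k - 2 * Real.log k) * (Ek k * (k : ℝ) ^ 2) := by
        refine mul_le_mul ?_ hE (by linarith) (Real.exp_pos _).le
        rw [s1]
        exact Real.exp_le_exp.mpr (by linarith)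
    _ = Real.exp (S - Hk k) * Ek k := by
        have : Real.exp (S - Hk k - 2 * Real.log k) = Real.exp (S - Hk k) / (k : ℝ) ^ 2 := by
          rw [Real.exp_sub, show 2 * Real.log (k : ℝ) = Real.log ((k : ℝ) ^ 2) by
            rw [Real.log_pow]; push_cast; ring, Real.exp_log (by positivity)]
        rw [this]
        field_simp
    _ ≤ st.κ + ε := hk.le

end State

end Pool.Agent.TH871.L1
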