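import Mathlib

/-! Polynomials given by their lists of coefficients. -/

namespace Pool.Agent.TH871.L1

/-- value of the polynomial with coefficient list `l` -/
noncomputable def pe : List ℝ → ℝ → ℝ
  | [], _ => 0
  | a :: l, u => a + u * pe l u

/-- value of the derivative of the polynomial with coefficient list `l` -/
noncomputable def dpe : List ℝ → ℝ → ℝ
  | [], _ => 0
  | _ :: l, u => pe l u + u * dpe l u

lemma hasDerivAt_pe (l : List ℝ) (u : ℝ) : HasDerivAt (pe l) (dpe l u) u := by
  induction l with
  | nil => exact hasDerivAt_const u (0 : ℝ)
  | cons a l ih =>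
    have h := ((hasDerivAt_id u).mul ih).const_add a
    convert! h using 1
    simp only [dpe, id, one_mul]

lemma contDiff_pe (l : List ℝ) : ContDiff ℝ 1 (pe l) := by
  induction l with
  | nil => exact contDiff_const
  | cons a l ih => exact contDiff_const.add (contDiff_id.mul ih)

lemma continuous_pe (l : List ℝ) : Continuous (pe l) := (contDiff_pe l).continuous

end Pool.Agent.TH871.L1
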