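import Pool.Agent.TH871.L1.Geg
import Pool.Agent.TH871.L1.Poly

/-! The explicit state of rank five (generated). -/

open Finset

namespace Pool.Agent.TH871.L1

namespace G5

noncomputable def sv : Fin 5 → ℝ := ![69, 15, 5, 2, 1]
noncomputable def dv : Fin 5 → ℝ := ![1, 5, 7 / 8, 15 / 8, 55 / 64]

noncomputable def r0 : List ℝ := [1]
noncomputable def r1 : List ℝ := [0, 1]
noncomputable def r2 : List ℝ := [-1, 0, 5]
noncomputable def r3 : List ℝ := [0, -3, 0, 7]
noncomputable def r4 : List ℝ := [1, 0, -14, 0, 21]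
noncomputable def p00 : List ℝ := [1 / 2, 3 / 4, 0, -1 / 4]
noncomputable def p01 : List ℝ := [-3 / 16, 0, 3 / 8, 0, -3 / 16]
noncomputable def p02 : List ℝ := [0, -3 / 4, 0, 3 / 2, 0, -3 / 4]
noncomputable def p03 : List ℝ := [1 / 8, 0, -9 / 8, 0, 15 / 8, 0, -7 / 8]
noncomputable def p04 : List ℝ := [0, 3 / 4, 0, -15 / 4, 0, 21 / 4, 0, -9 / 4]
noncomputable def p11 : List ℝ := [1 / 10, 0, 0, 1 / 4, 0, -3 / 20]
noncomputable def p12 : List ℝ := [-1 / 8, 0, -3 / 8, 0, 9 / 8, 0, -5 / 8]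
noncomputable def p13 : List ℝ := [0, 0, 0, -3 / 4, 0, 3 / 2, 0, -3 / 4]
noncomputable def p14 : List ℝ := [1 / 32, 0, 3 / 8, 0, -45 / 16, 0, 35 / 8, 0, -63 / 32]
noncomputable def p22 : List ℝ := [4 / 7, 3 / 4, 0, -11 / 4, 0, 21 / 4, 0, -75 / 28]
noncomputable def p23 : List ℝ := [-9 / 32, 0, 9 / 8, 0, -75 / 16, 0, 57 / 8, 0, -105 / 32]
noncomputable def p24 : List ℝ := [0, -3 / 4, 0, 5, 0, -33 / 2, 0, 21, 0, -35 / 4]
noncomputable def p33 : List ℝ := [4 / 15, 0, 0, 9 / 4, 0, -153 / 20, 0, 39 / 4, 0, -49 / 12]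
noncomputable def p34 : List ℝ := [-9 / 40, 0, -9 / 8, 0, 39 / 4, 0, -105 / 4, 0, 231 / 8, 0, -441 / 40]
noncomputable def p44 : List ℝ := [32 / 55, 3 / 4, 0, -29 / 4, 0, 399 / 10, 0, -177 / 2, 0, 343 / 4, 0, -1323 / 44]
noncomputable def rv : Fin 5 → List ℝ := ![r0, r1, r2, r3, r4]
noncomputable def pv : Fin 5 → Fin 5 → List ℝ := ![![p00, p01, p02, p03, p04], ![p01, p11, p12, p13, p14], ![p02, p12, p22, p23, p24], ![p03, p13, p23, p33, p34], ![p04, p14, p24, p34, p44]]
noncomputable def lP : List ℝ := [0, 9489015 / 54788096, 0, -4930311 / 109576192, 0, 4049269 / 547880960, 0, -41311367 / 1150550016, 0, 65126203 / 1479278592, 0, -2586509 / 82182144, 0, 84193 / 3035136, 0, -104751073 / 2465464320, 0, 15196909 / 349274112, 0, -51494247 / 2081947648, 0, 694575 / 109576192]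
noncomputable def lP' : List ℝ := [9489015 / 54788096, 0, -14790933 / 109576192, 0, 4049269 / 109576192, 0, -41311367 / 164364288, 0, 65126203 / 164364288, 0, -2586509 / 7471104, 0, 84193 / 233472, 0, -104751073 / 164364288, 0, 15196909 / 20545536, 0, -51494247 / 109576192, 0, 14586075 / 109576192]
noncomputable def lQ1 : List ℝ := [1 / 2, 92143 / 428032, -92143 / 428032, 5175 / 214016, -5175 / 214016, 945 / 107008, -945 / 107008, -735 / 214016, 735 / 214016, 2205 / 428032, -2205 / 428032]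
noncomputable def lQ2 : List ℝ := [1 / 2, -92143 / 428032, -92143 / 428032, -5175 / 214016, -5175 / 214016, -945 / 107008, -945 / 107008, 735 / 214016, 735 / 214016, -2205 / 428032, -2205 / 428032]
noncomputable def lQ : List ℝ := [0, 1, 0, -92143 / 642048, 0, -1035 / 107008, 0, -135 / 53504, 0, 245 / 321024, 0, -2205 / 2354176]
noncomputable def lLam : List ℝ := [0, -571124249948319065215623 / 9218176591343340889309184, 0, 588654503413761370881821 / 9218176591343340889309184, 0, -12836522978156812503495 / 1152272073917917611163648, 0, -8468051489173048124875 / 733264047038674843467776, 0, 129052892961344510190275 / 20740897330522517000945664, 0, -90496662589444083913035 / 25349985626194187445600256, 0, -6006090184638964695625 / 14979536960932928945127424, 0, -1686609506301682330375 / 3456816221753752833490944, 0, 26117349291950746501875 / 78354501026418397559128064, 0, -14968096298067202941875 / 87572677617761738448437248, 0, 6758042919138984375 / 1152272073917917611163648,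 0, 584342853565263515625 / 26502257700112105056763904, 0, -38504925824102128125 / 2304544147835835222327296, 0, 10751421687810234375 / 2304544147835835222327296, 0, 449955723779296875 / 3037808194874510065795072, 0, -472724941376953125 / 295210200755830131785728, 0, 41040428994140625 / 76183277614407775944704, 0, -130287076171875 / 629613864581882445824]
noncomputable def lg : List ℝ := [102053 / 107008, 0, 5065 / 26752, 0, 245 / 2816, 0, -735 / 26752, 0, 735 / 9728]
noncomputable def lW : List ℝ := [1 / 2, 306159 / 428032, 0, -81793 / 428032, 0, -3285 / 214016, 0, -2625 / 214016, 0, 3675 / 428032, 0, -2205 / 428032]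


lemma sum5 (f : Fin 5 → ℝ) : ∑ a, f a = f 0 + f 1 + f 2 + f 3 + f 4 := Fin.sum_univ_five f

lemma sv0 : sv 0 = 69 := rfl
lemma sv1 : sv 1 = 15 := rfl
lemma sv2 : sv 2 = 5 := rfl
lemma sv3 : sv 3 = 2 := rfl
lemma sv4 : sv 4 = 1 := rfl
lemma dv0 : dv 0 = 1 := rfl
lemma dv1 : dv 1 = 5 := rfl
lemma dv2 : dv 2 = 7 / 8 := rfl
lemma dv3 : dv 3 = 15 / 8 := rfl
lemma dv4 : dv 4 = 55 / 64 := rfl

/-- the derivative of `pv a b` -/
lemma check_p (a b : Fin 5) (u : ℝ) : dpe (pv a b) u =
    3 / 4 * (1 - u ^ 2) * (pe (rv a) u * pe (rv b) u) := by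
  fin_cases a <;> fin_cases b <;>
    simp only [pv, rv, Fin.zero_eta, Fin.mk_one, Fin.reduceFinMk, Matrix.cons_val, p00, p01, p02, p03, p04,
      p11, p12, p13, p14, p22, p23, p24, p33, p34, p44, r0, r1, r2, r3, r4, pe, dpe] <;> ring

lemma check_ps (a b : Fin 5) (u : ℝ) : pe (pv a b) u = pe (pv b a) u := by
  fin_cases a <;> fin_cases b <;> rfl

lemma check_p0 (a b : Fin 5) : pe (pv a b) (-1) = 0 := by
  fin_cases a <;> fin_cases b <;>
    simp only [pv, Fin.zero_eta, Fin.mk_one, Fin.reduceFinMk, Matrix.cons_val, p00, p01, p02, p03, p04,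
      p11, p12, p13, p14, p22, p23, p24, p33, p34, p44, pe] <;> norm_num

lemma check_p1 (a b : Fin 5) : pe (pv a b) 1 = if a = b then (dv a)⁻¹ else 0 := by
  fin_cases a <;> fin_cases b <;>
    simp only [pv, dv, Fin.zero_eta, Fin.mk_one, Fin.reduceFinMk, Matrix.cons_val, p00, p01, p02, p03, p04,
      p11, p12, p13, p14, p22, p23, p24, p33, p34, p44, pe, Fin.reduceEq, if_true, if_false] <;> norm_num

lemma pvv (a b : Fin 5) (u : ℝ) (l : List ℝ) (h : pv a b = l) : pe (pv a b) u = pe l u := by rw [h]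

lemma hW (u : ℝ) : (∑ a, sv a ^ 2 * (dv a * pe (pv a a) u)) / 5016 = pe lW u := by
  rw [sum5, pvv 0 0 u p00 rfl, pvv 1 1 u p11 rfl, pvv 2 2 u p22 rfl, pvv 3 3 u p33 rfl,
    pvv 4 4 u p44 rfl, sv0, sv1, sv2, sv3, sv4, dv0, dv1, dv2, dv3, dv4]
  simp only [p00, p11, p22, p33, p44, lW, pe]
  ring

lemma rvv (a : Fin 5) (u : ℝ) (l : List ℝ) (h : rv a = l) : pe (rv a) u = pe l u := by rw [h]

lemma hg (u : ℝ) : (∑ a, sv a ^ 2 * (dv a * pe (rv a) u ^ 2)) / 5016 = pe lg u := by
  rw [sum5, rvv 0 u r0 rfl, rvv 1 u r1 rfl, rvv 2 u r2 rfl, rvv 3 u r3 rfl, rvv 4 u r4 rfl,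
    sv0, sv1, sv2, sv3, sv4, dv0, dv1, dv2, dv3, dv4]
  simp only [r0, r1, r2, r3, r4, lg, pe]
  ring

lemma check_Q (u : ℝ) : dpe lQ u = pe lQ1 u + pe lQ2 u := by
  simp only [lQ, lQ1, lQ2, pe, dpe]
  ring

lemma check_Q1 (u : ℝ) : pe lQ1 u * (1 + u) = pe lW u := by
  simp only [lQ1, lW, pe]
  ring

lemma check_Q2 (u : ℝ) : pe lQ2 u * (1 - u) = 1 - pe lW u := by
  simp only [lQ2, lW, pe]
  ring

lemma check_P (u : ℝ) : dpe lP u = pe lP' u := by
  simp only [lP, lP', pe, dpe]
  ring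

lemma check_Lam (u : ℝ) : dpe lLam u = 3 / 4 * (1 - u ^ 2) * pe lg u *
    ((pe lg u / (26 / 25) - 1) - (pe lg u / (26 / 25) - 1) ^ 2 / 2 +
      (pe lg u / (26 / 25) - 1) ^ 3 / 3) := by
  simp only [lLam, lg, pe, dpe]
  ring

lemma check_H (u : ℝ) : pe lP' u * (1 - u ^ 2) =
    (∑ a, sv a ^ 2 * (1 - dv a * pe (pv a a) u) -
    ∑ a, ∑ b, sv a * sv b * (if a = b then (1 - dv a * pe (pv a a) u) ^ 2
      else dv a * dv b * pe (pv a b) u ^ 2)) / 5016 := by
  simp only [sum5, Fin.reduceEq, if_true, if_false, sv0, sv1, sv2, sv3, sv4, dv0, dv1, dv2, dv3, dv4,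
    pv, Fin.isValue, Matrix.cons_val, p00, p01, p02, p03, p04, p11, p12, p13, p14, p22, p23, p24,
    p33, p34, p44, pe, lP']
  ring

lemma hZ : ∑ a, sv a ^ 2 = 5016 := by
  rw [sum5, sv0, sv1, sv2, sv3, sv4]
  norm_num

/-- the polynomial data of rank five -/
noncomputable def data : Data 5 where
  s := sv
  d := dv
  r := fun a => pe (rv a)
  Pi := fun a b => pe (pv a b)
  P := pe lP
  P' := pe lP'
  Q1 := pe lQ1
  Q2 := pe lQ2
  Q := pe lQ
  c0 := 26 / 25
  Lam := pe lLam
  Z := 5016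
  s0 := by
    intro a
    fin_cases a <;> simp [sv]
  d0 := by
    intro a
    fin_cases a <;> simp [dv]
  Z0 := by norm_num
  hZ := hZ
  hr := fun a => contDiff_pe _
  hPi := by
    intro a b u
    have h := hasDerivAt_pe (pv a b) u
    rw [check_p] at h
    exact h
  hPs := check_ps
  hPi0 := check_p0
  hPi1 := check_p1
  hP := by
    intro u
    have h := hasDerivAt_pe lP u
    rw [check_P] at h
    exact h
  hPc := contDiff_pe _
  hP' := check_H
  hQ := by
    intro u
    have h := hasDerivAt_pe lQ u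
    rw [check_Q] at h
    exact h
  hQc := ⟨continuous_pe _, continuous_pe _⟩
  hQ1 := by
    intro u
    rw [hW]
    exact check_Q1 u
  hQ2 := by
    intro u
    rw [hW]
    exact check_Q2 u
  hc0 := by norm_num
  g0 := by
    intro u
    rw [sum5, rvv 0 u r0 rfl, sv0, dv0, dv1, dv2, dv3, dv4]
    have : pe r0 u = 1 := by simp [r0, pe]
    rw [this]
    positivity
  hLam := by
    intro u
    rw [hg]
    have h := hasDerivAt_pe lLam u
    rw [check_Lam] at h
    exact h

end G5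

end Pool.Agent.TH871.L1
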