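import Mathlib

/-! Auxiliary facts about `tanh`, Lipschitz functions and the logarithm. -/

open Filter Topology

namespace Pool.Agent.TH871.L1

lemma hasDerivAt_tanh (x : ℝ) : HasDerivAt Real.tanh (1 - Real.tanh x ^ 2) x := by
  have hc := (Real.cosh_pos x).ne'
  have h := (Real.hasDerivAt_sinh x).div (Real.hasDerivAt_cosh x) hc
  have e1 : (fun x => Real.sinh x / Real.cosh x) = Real.tanh := by
    funext y; rw [Real.tanh_eq_sinh_div_cosh]
  have e2 : (Real.cosh x * Real.cosh x - Real.sinh x * Real.sinh x) / Real.cosh x ^ 2 =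
      1 - Real.tanh x ^ 2 := by
    rw [Real.tanh_eq_sinh_div_cosh]; field_simp
  rw [e2] at h
  convert! h using 1
  exact e1.symm

lemma one_sub_tanh_le (x : ℝ) : 1 - Real.tanh x ≤ 2 * Real.exp (-(2 * x)) := by
  have hc := Real.cosh_pos x
  rw [Real.tanh_eq_sinh_div_cosh]
  have e1 : 1 - Real.sinh x / Real.cosh x = (Real.cosh x - Real.sinh x) / Real.cosh x := by
    field_simp
  rw [e1, Real.cosh_sub_sinh, div_le_iff₀ hc, Real.cosh_eq]
  have h1 : Real.exp (-(2 * x)) * Real.exp x = Real.exp (-x) := by rw [← Real.exp_add]; ring_nf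
  have h2 : 0 < Real.exp (-(2 * x)) * Real.exp (-x) := by positivity
  calc Real.exp (-x) = Real.exp (-(2 * x)) * Real.exp x := h1.symm
    _ ≤ Real.exp (-(2 * x)) * Real.exp x + Real.exp (-(2 * x)) * Real.exp (-x) := by linarith
    _ = _ := by ring

lemma one_sub_tanh_le' {x : ℝ} (hx : 0 ≤ x) : 1 - Real.tanh x ≤ 2 * Real.exp (-x) :=
  (one_sub_tanh_le x).trans (by
    have : Real.exp (-(2 * x)) ≤ Real.exp (-x) := Real.exp_le_exp.mpr (by linarith)
    linarith)

lemma tendsto_tanh_atTop : Tendsto Real.tanh atTop (𝓝 1) := by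
  have h1 : Tendsto (fun x : ℝ => 1 - 2 * Real.exp (-x)) atTop (𝓝 (1 - 2 * 0)) :=
    (Real.tendsto_exp_neg_atTop_nhds_zero.const_mul 2).const_sub 1
  rw [mul_zero, sub_zero] at h1
  refine tendsto_of_tendsto_of_tendsto_of_le_of_le' h1 tendsto_const_nhds ?_ ?_
  · filter_upwards [eventually_ge_atTop 0] with x hx
    linarith [one_sub_tanh_le' hx]
  · exact Eventually.of_forall fun x => (Real.tanh_lt_one x).le

lemma tendsto_tanh_atBot : Tendsto Real.tanh atBot (𝓝 (-1)) := by
  have h := (tendsto_tanh_atTop.comp tendsto_neg_atBot_atTop).neg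
  refine h.congr fun x => ?_
  simp [Real.tanh_neg]

lemma tanh_mem (x : ℝ) : Real.tanh x ∈ Set.Icc (-1 : ℝ) 1 :=
  ⟨(Real.neg_one_lt_tanh x).le, (Real.tanh_lt_one x).le⟩

lemma one_sub_sq_pos (x : ℝ) : 0 < 1 - Real.tanh x ^ 2 := by
  have h1 := Real.tanh_lt_one x
  have h2 := Real.neg_one_lt_tanh x
  nlinarith

lemma lip_of_deriv {f f' : ℝ → ℝ} {C : ℝ} (hf : ∀ x, HasDerivAt f (f' x) x)
    (hC : ∀ x, |f' x| ≤ C) (x y : ℝ) : |f x - f y| ≤ C * |x - y| := by
  have := Convex.norm_image_sub_le_of_norm_hasDerivWithin_le (s := Set.univ) (x := y) (y := x)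
    (fun z _ => (hf z).hasDerivWithinAt) (fun z _ => hC z) convex_univ (Set.mem_univ y)
    (Set.mem_univ x)
  simpa [Real.norm_eq_abs] using this

lemma bound_deriv {f : ℝ → ℝ} (hf : ContDiff ℝ 1 f) : ∃ C, 0 ≤ C ∧
    ∀ u ∈ Set.Icc (-1 : ℝ) 1, |deriv f u| ≤ C := by
  have hc : Continuous (deriv f) := hf.continuous_deriv le_rfl
  obtain ⟨C, hC⟩ := (isCompact_Icc (a := (-1 : ℝ)) (b := 1)).exists_bound_of_continuousOn
    hc.continuousOn
  refine ⟨max C 0, le_max_right _ _, fun u hu => (hC u hu).trans (le_max_left _ _)⟩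

lemma hasDeriv_comp {f : ℝ → ℝ} {f' : ℝ} {x : ℝ} (hf : HasDerivAt f f' (Real.tanh x)) :
    HasDerivAt (fun x => f (Real.tanh x)) (f' * (1 - Real.tanh x ^ 2)) x :=
  hf.comp x (hasDerivAt_tanh x)

/-- Lipschitz bound for a function of `tanh` -/
lemma lip_tanh {f : ℝ → ℝ} (hf : ContDiff ℝ 1 f) : ∃ C, 0 ≤ C ∧
    ∀ x y : ℝ, |f (Real.tanh x) - f (Real.tanh y)| ≤ C * |x - y| := by
  obtain ⟨C, hC0, hC⟩ := bound_deriv hf
  refine ⟨C, hC0, lip_of_deriv (f := fun x => f (Real.tanh x))
    (f' := fun x => deriv f (Real.tanh x) * (1 - Real.tanh x ^ 2)) (fun x => ?_) fun x => ?_⟩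
  · exact hasDeriv_comp ((hf.differentiable one_ne_zero) _).hasDerivAt
  · rw [abs_mul]
    have h1 : |1 - Real.tanh x ^ 2| ≤ 1 := by
      rw [abs_of_pos (one_sub_sq_pos x)]
      nlinarith [sq_nonneg (Real.tanh x)]
    calc _ ≤ C * 1 := mul_le_mul (hC _ (tanh_mem x)) h1 (abs_nonneg _) hC0
      _ = C := mul_one C

/-- Lipschitz bound on `[-1, 1]` -/
lemma lip_Icc {f : ℝ → ℝ} (hf : ContDiff ℝ 1 f) : ∃ C, 0 ≤ C ∧
    ∀ u ∈ Set.Icc (-1 : ℝ) 1, ∀ v ∈ Set.Icc (-1 : ℝ) 1, |f u - f v| ≤ C * |u - v| := by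
  obtain ⟨C, hC0, hC⟩ := bound_deriv hf
  refine ⟨C, hC0, fun u hu v hv => ?_⟩
  have := Convex.norm_image_sub_le_of_norm_hasDerivWithin_le (f := f) (f' := deriv f)
    (s := Set.Icc (-1 : ℝ) 1) (x := v) (y := u)
    (fun z _ => ((hf.differentiable one_ne_zero) z).hasDerivAt.hasDerivWithinAt)
    (fun z hz => hC z hz) (convex_Icc _ _) hv hu
  simpa [Real.norm_eq_abs] using this

lemma hasDeriv_log_one_sub (x : ℝ) :
    HasDerivAt (fun x => Real.log (1 - Real.tanh x ^ 2)) (-2 * Real.tanh x) x := by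
  have h1 : HasDerivAt (fun x => 1 - Real.tanh x ^ 2)
      (-(2 * Real.tanh x * (1 - Real.tanh x ^ 2))) x := by
    have := ((hasDerivAt_tanh x).pow 2).const_sub 1
    convert! this using 1
    push_cast; ring
  have h2 := h1.log (one_sub_sq_pos x).ne'
  convert! h2 using 1
  have := (one_sub_sq_pos x).ne'
  field_simp

lemma log_le_cubic {t : ℝ} (ht : -1 < t) : Real.log (1 + t) ≤ t - t ^ 2 / 2 + t ^ 3 / 3 := by
  set f : ℝ → ℝ := fun t => t - t ^ 2 / 2 + t ^ 3 / 3 - Real.log (1 + t) with hf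
  have hd : ∀ x : ℝ, -1 < x → HasDerivAt f (x ^ 3 / (1 + x)) x := by
    intro x hx
    have hx1 : (1 + x) ≠ 0 := by linarith
    have h1 : HasDerivAt (fun t : ℝ => t - t ^ 2 / 2 + t ^ 3 / 3) (1 - x + x ^ 2) x := by
      have := ((hasDerivAt_id x).sub ((hasDerivAt_pow 2 x).div_const 2)).add
        ((hasDerivAt_pow 3 x).div_const 3)
      convert! this using 1
      push_cast; ring
    have h2 : HasDerivAt (fun t : ℝ => Real.log (1 + t)) (1 / (1 + x)) x := by
      have := ((hasDerivAt_id x).const_add 1).log hx1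
      simpa using this
    have h3 := h1.sub h2
    convert! h3 using 1
    field_simp
    ring
  have hf0 : f 0 = 0 := by simp [hf]
  suffices h : 0 ≤ f t by
    simp only [hf] at h
    linarith
  rcases le_total 0 t with h0 | h0
  · have hm : MonotoneOn f (Set.Icc 0 t) := by
      refine monotoneOn_of_deriv_nonneg (convex_Icc _ _)
        (fun x hx => (hd x (by linarith [hx.1])).continuousAt.continuousWithinAt)
        (fun x hx => (hd x ?_).differentiableAt.differentiableWithinAt) fun x hx => ?_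
      · rw [interior_Icc] at hx; linarith [hx.1]
      · rw [interior_Icc] at hx
        rw [(hd x (by linarith [hx.1])).deriv]
        have := hx.1
        positivity
    have := hm (Set.left_mem_Icc.mpr h0) (Set.right_mem_Icc.mpr h0) h0
    rwa [hf0] at this
  · have hm : AntitoneOn f (Set.Icc t 0) := by
      refine antitoneOn_of_deriv_nonpos (convex_Icc _ _)
        (fun x hx => (hd x (by linarith [hx.1])).continuousAt.continuousWithinAt)
        (fun x hx => (hd x ?_).differentiableAt.differentiableWithinAt) fun x hx => ?_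
      · rw [interior_Icc] at hx; linarith [hx.1]
      · rw [interior_Icc] at hx
        rw [(hd x (by linarith [hx.1])).deriv]
        have h1 : x ^ 3 ≤ 0 := by
          have := hx.2
          have h2 : 0 ≤ (-x) ^ 3 := by
            have : 0 ≤ -x := by linarith
            positivity
          nlinarith
        exact div_nonpos_of_nonpos_of_nonneg h1 (by linarith [hx.1])
    have := hm (Set.left_mem_Icc.mpr h0) (Set.right_mem_Icc.mpr h0) h0
    rwa [hf0] at this

end Pool.Agent.TH871.L1
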