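import Pool.Agent.TH871.L1.Disc
import Pool.Agent.TH871.L1.Tanh

/-!
States on the line built from polynomials in `u = tanh x`, orthogonal for the weight
`(3 / 4) (1 - u ^ 2)` on `[-1, 1]`.
-/

open Finset Filter Topology

namespace Pool.Agent.TH871.L1

/-- polynomial data of a state -/
structure Data (R : ℕ) where
  s : Fin R → ℝ
  d : Fin R → ℝ
  r : Fin R → ℝ → ℝ
  Pi : Fin R → Fin R → ℝ → ℝ
  P : ℝ → ℝ
  P' : ℝ → ℝ
  Q1 : ℝ → ℝ
  Q2 : ℝ → ℝ
  Q : ℝ → ℝ
  c0 : ℝ
  Lam : ℝ → ℝ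
  Z : ℝ
  s0 : ∀ a, 0 ≤ s a
  d0 : ∀ a, 0 < d a
  Z0 : 0 < Z
  hZ : ∑ a, s a ^ 2 = Z
  hr : ∀ a, ContDiff ℝ 1 (r a)
  hPi : ∀ a b u, HasDerivAt (Pi a b) (3 / 4 * (1 - u ^ 2) * (r a u * r b u)) u
  hPs : ∀ a b u, Pi a b u = Pi b a u
  hPi0 : ∀ a b, Pi a b (-1) = 0
  hPi1 : ∀ a b, Pi a b 1 = if a = b then (d a)⁻¹ else 0
  hP : ∀ u, HasDerivAt P (P' u) u
  hPc : ContDiff ℝ 1 P'
  hP' : ∀ u, P' u * (1 - u ^ 2) = (∑ a, s a ^ 2 * (1 - d a * Pi a a u) -
    ∑ a, ∑ b, s a * s b * (if a = b then (1 - d a * Pi a a u) ^ 2 else d a * d b * Pi a b u ^ 2)) / Z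
  hQ : ∀ u, HasDerivAt Q (Q1 u + Q2 u) u
  hQc : Continuous Q1 ∧ Continuous Q2
  hQ1 : ∀ u, Q1 u * (1 + u) = (∑ a, s a ^ 2 * (d a * Pi a a u)) / Z
  hQ2 : ∀ u, Q2 u * (1 - u) = 1 - (∑ a, s a ^ 2 * (d a * Pi a a u)) / Z
  hc0 : 0 < c0
  g0 : ∀ u, 0 < ∑ a, s a ^ 2 * (d a * r a u ^ 2)
  hLam : ∀ u, HasDerivAt Lam (3 / 4 * (1 - u ^ 2) * ((∑ a, s a ^ 2 * (d a * r a u ^ 2)) / Z) *
    (((∑ a, s a ^ 2 * (d a * r a u ^ 2)) / Z / c0 - 1) -
      ((∑ a, s a ^ 2 * (d a * r a u ^ 2)) / Z / c0 - 1) ^ 2 / 2 +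
      ((∑ a, s a ^ 2 * (d a * r a u ^ 2)) / Z / c0 - 1) ^ 3 / 3)) u

namespace Data

variable {R : ℕ} (D : Data R)

/-- density with respect to the weight -/
noncomputable def g (u : ℝ) : ℝ := (∑ a, D.s a ^ 2 * (D.d a * D.r a u ^ 2)) / D.Z

/-- distribution function in the variable `u` -/
noncomputable def W (u : ℝ) : ℝ := (∑ a, D.s a ^ 2 * (D.d a * D.Pi a a u)) / D.Z

/-- energy density in the variable `u` -/
noncomputable def H (u : ℝ) : ℝ := D.P' u * (1 - u ^ 2)

lemma g_pos (u : ℝ) : 0 < D.g u := div_pos (D.g0 u) D.Z0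

lemma hW (u : ℝ) : HasDerivAt D.W (3 / 4 * (1 - u ^ 2) * D.g u) u := by
  have h := (HasDerivAt.fun_sum (u := univ) (A := fun a y => D.s a ^ 2 * (D.d a * D.Pi a a y))
    (A' := fun a => D.s a ^ 2 * (D.d a * (3 / 4 * (1 - u ^ 2) * (D.r a u * D.r a u)))) (x := u)
    fun a _ => ((D.hPi a a u).const_mul (D.d a)).const_mul (D.s a ^ 2)).div_const D.Z
  convert! h using 1
  unfold g
  rw [mul_div_assoc', mul_sum]
  congr 1
  exact sum_congr rfl fun a _ => by ring

lemma W_neg_one : D.W (-1) = 0 := by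
  unfold W
  simp [D.hPi0]

lemma W_one : D.W 1 = 1 := by
  unfold W
  have : ∀ a, D.s a ^ 2 * (D.d a * D.Pi a a 1) = D.s a ^ 2 := by
    intro a
    rw [D.hPi1, if_pos rfl, mul_inv_cancel₀ (D.d0 a).ne', mul_one]
  simp_rw [this]
  rw [D.hZ, div_self D.Z0.ne']

lemma g_contDiff : ContDiff ℝ 1 D.g := by
  unfold g
  refine ContDiff.div_const ?_ _
  refine ContDiff.sum fun a _ => ?_
  exact contDiff_const.mul (contDiff_const.mul ((D.hr a).pow 2))

lemma W_contDiff : ContDiff ℝ 1 D.W := by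
  rw [contDiff_one_iff_deriv]
  refine ⟨fun u => (D.hW u).differentiableAt, ?_⟩
  have : deriv D.W = fun u => 3 / 4 * (1 - u ^ 2) * D.g u := by
    funext u; exact (D.hW u).deriv
  rw [this]
  have := D.g_contDiff.continuous
  fun_prop

lemma sqrt_lam (a b : Fin R) : √(D.s a ^ 2 / D.Z * (D.s b ^ 2 / D.Z)) = D.s a * D.s b / D.Z := by
  have : D.s a ^ 2 / D.Z * (D.s b ^ 2 / D.Z) = (D.s a * D.s b / D.Z) ^ 2 := by
    rw [div_mul_div_comm, div_pow, mul_pow, sq D.Z]
  rw [this, Real.sqrt_sq]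
  exact div_nonneg (mul_nonneg (D.s0 a) (D.s0 b)) D.Z0.le

/-- the cumulative matrices -/
noncomputable def F (a b : Fin R) (x : ℝ) : ℝ :=
  √(D.d a) * √(D.d b) * D.Pi a b (Real.tanh x)

/-- the orthonormal functions -/
noncomputable def psi (a : Fin R) (x : ℝ) : ℝ :=
  √(3 / 4) * √(D.d a) * D.r a (Real.tanh x) * (1 - Real.tanh x ^ 2)

lemma F_diag (a : Fin R) (x : ℝ) : D.F a a x = D.d a * D.Pi a a (Real.tanh x) := by
  unfold F
  rw [Real.mul_self_sqrt (D.d0 a).le]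

lemma F_sq (a b : Fin R) (x : ℝ) : D.F a b x ^ 2 = D.d a * D.d b * D.Pi a b (Real.tanh x) ^ 2 := by
  unfold F
  rw [mul_pow, mul_pow, Real.sq_sqrt (D.d0 a).le, Real.sq_sqrt (D.d0 b).le]

lemma energy (x : ℝ) : (∑ a, D.s a ^ 2 / D.Z * (1 - D.F a a x)
    - ∑ a, ∑ b, √(D.s a ^ 2 / D.Z * (D.s b ^ 2 / D.Z)) * ((if a = b then 1 else 0) - D.F a b x) ^ 2) =
    D.H (Real.tanh x) := by
  unfold H
  rw [D.hP', sub_div, sum_div, sum_div]
  congr 1
  · refine sum_congr rfl fun a _ => ?_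
    rw [D.F_diag]
    ring
  · refine sum_congr rfl fun a _ => ?_
    rw [sum_div]
    refine sum_congr rfl fun b _ => ?_
    rw [D.sqrt_lam]
    by_cases hab : a = b
    · subst hab
      rw [if_pos rfl, if_pos rfl, D.F_diag]
      ring
    · rw [if_neg hab, if_neg hab, zero_sub, neg_sq, D.F_sq]
      ring

lemma hF (a b : Fin R) (x : ℝ) : HasDerivAt (D.F a b) (D.psi a x * D.psi b x) x := by
  have h := (hasDeriv_comp (x := x) (D.hPi a b (Real.tanh x))).const_mul (√(D.d a) * √(D.d b))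
  convert! h using 1
  unfold psi
  have := Real.mul_self_sqrt (show (0 : ℝ) ≤ 3 / 4 by norm_num)
  linear_combination (√(D.d a) * D.r a (Real.tanh x) * (1 - Real.tanh x ^ 2) *
    (√(D.d b) * D.r b (Real.tanh x) * (1 - Real.tanh x ^ 2))) * this

lemma cont_Pi (a b : Fin R) : Continuous (D.Pi a b) :=
  continuous_iff_continuousAt.mpr fun u => (D.hPi a b u).continuousAt

/-- the entropy primitive -/
noncomputable def Phi (u : ℝ) : ℝ :=
  (Real.log (4 / 3) - Real.log D.c0) * D.W u - D.Lam u - 2 * (Real.log (1 + u) * D.W u) +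
    2 * (Real.log (1 - u) * (1 - D.W u)) + 2 * D.Q u

/-- derivative of the entropy primitive -/
noncomputable def phi (u : ℝ) : ℝ :=
  3 / 4 * (1 - u ^ 2) * D.g u * (Real.log (4 / 3) - Real.log D.c0 -
    ((D.g u / D.c0 - 1) - (D.g u / D.c0 - 1) ^ 2 / 2 + (D.g u / D.c0 - 1) ^ 3 / 3) -
    2 * Real.log (1 + u) - 2 * Real.log (1 - u))

lemma hPhi {u : ℝ} (h1 : -1 < u) (h2 : u < 1) : HasDerivAt D.Phi (D.phi u) u := by
  have hp : (1 + u) ≠ 0 := by linarith
  have hm : (1 - u) ≠ 0 := by linarith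
  have e1 : HasDerivAt (fun u : ℝ => Real.log (1 + u)) (1 / (1 + u)) u := by
    have := ((hasDerivAt_id u).const_add 1).log hp
    simpa using this
  have e2 : HasDerivAt (fun u : ℝ => Real.log (1 - u)) (-1 / (1 - u)) u := by
    have := ((hasDerivAt_id u).const_sub 1).log hm
    simpa using this
  have hW := D.hW u
  have h3 := (((hW.const_mul (Real.log (4 / 3) - Real.log D.c0)).sub (D.hLam u)).sub
    ((e1.mul hW).const_mul 2)).add ((e2.mul (hW.const_sub 1)).const_mul 2) |>.add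
    ((D.hQ u).const_mul 2)
  convert! h3 using 1
  have q1 : D.Q1 u = D.W u / (1 + u) := by
    rw [eq_div_iff hp]; exact D.hQ1 u
  have q2 : D.Q2 u = (1 - D.W u) / (1 - u) := by
    rw [eq_div_iff hm]; exact D.hQ2 u
  rw [q1, q2]
  unfold phi
  have hg : (∑ a, D.s a ^ 2 * (D.d a * D.r a u ^ 2)) / D.Z = D.g u := rfl
  rw [hg]
  field_simp
  ring

lemma phi_le {u : ℝ} (h1 : -1 < u) (h2 : u < 1) : D.phi u * (1 - u ^ 2) ≤
    3 / 4 * D.g u * (1 - u ^ 2) ^ 2 * (-Real.log (3 / 4 * D.g u * (1 - u ^ 2) ^ 2)) := by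
  have hp : 0 < 1 + u := by linarith
  have hm : 0 < 1 - u := by linarith
  have hs : 0 < 1 - u ^ 2 := by nlinarith
  have hg := D.g_pos u
  have e1 : Real.log (3 / 4 * D.g u * (1 - u ^ 2) ^ 2) =
      Real.log (3 / 4) + Real.log (D.g u) + 2 * (Real.log (1 + u) + Real.log (1 - u)) := by
    have : 1 - u ^ 2 = (1 + u) * (1 - u) := by ring
    rw [Real.log_mul (by positivity) (by positivity), Real.log_mul (by norm_num) hg.ne',
      Real.log_pow, this, Real.log_mul hp.ne' hm.ne']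
    push_cast; ring
  have e2 : Real.log (4 / 3) = -Real.log (3 / 4) := by
    rw [← Real.log_inv]; norm_num
  have e3 : Real.log (D.g u) ≤ Real.log D.c0 + ((D.g u / D.c0 - 1) - (D.g u / D.c0 - 1) ^ 2 / 2 +
      (D.g u / D.c0 - 1) ^ 3 / 3) := by
    have h4 : 0 < D.g u / D.c0 := div_pos hg D.hc0
    have h5 := log_le_cubic (t := D.g u / D.c0 - 1) (by linarith)
    rw [add_sub_cancel, Real.log_div hg.ne' D.hc0.ne'] at h5
    linarith
  rw [e1]
  unfold phi
  rw [e2]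
  have e4 : 0 ≤ 3 / 4 * (1 - u ^ 2) ^ 2 * D.g u := by positivity
  nlinarith [mul_le_mul_of_nonneg_left e3 e4]

lemma Phi_eq (u : ℝ) : D.Phi u = (Real.log (4 / 3) - Real.log D.c0) * D.W u - D.Lam u -
    2 * (((1 + u) * Real.log (1 + u)) * D.Q1 u) + 2 * (((1 - u) * Real.log (1 - u)) * D.Q2 u) +
    2 * D.Q u := by
  unfold Phi
  have h1 : D.W u = D.Q1 u * (1 + u) := (D.hQ1 u).symm
  have h2 : 1 - D.W u = D.Q2 u * (1 - u) := (D.hQ2 u).symm
  have e1 : Real.log (1 + u) * D.W u = (1 + u) * Real.log (1 + u) * D.Q1 u := by rw [h1]; ring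
  have e2 : Real.log (1 - u) * (1 - D.W u) = (1 - u) * Real.log (1 - u) * D.Q2 u := by rw [h2]; ring
  rw [e1, e2]

lemma Phi_cont : Continuous D.Phi := by
  have h0 : D.Phi = fun u => (Real.log (4 / 3) - Real.log D.c0) * D.W u - D.Lam u -
    2 * (((1 + u) * Real.log (1 + u)) * D.Q1 u) + 2 * (((1 - u) * Real.log (1 - u)) * D.Q2 u) +
    2 * D.Q u := funext D.Phi_eq
  rw [h0]
  have h1 : Continuous D.W := D.W_contDiff.continuous
  have h2 : Continuous D.Lam := continuous_iff_continuousAt.mpr fun u => (D.hLam u).continuousAt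
  have h3 : Continuous D.Q := continuous_iff_continuousAt.mpr fun u => (D.hQ u).continuousAt
  have h4 := D.hQc.1
  have h5 := D.hQc.2
  have h6 : Continuous (fun u : ℝ => (1 + u) * Real.log (1 + u)) :=
    Real.continuous_mul_log.comp (by fun_prop)
  have h7 : Continuous (fun u : ℝ => (1 - u) * Real.log (1 - u)) :=
    Real.continuous_mul_log.comp (by fun_prop)
  exact ((((continuous_const.mul h1).sub h2).sub (continuous_const.mul (h6.mul h4))).add
    (continuous_const.mul (h7.mul h5))).add (continuous_const.mul h3)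

lemma Phi_one : D.Phi 1 = Real.log (4 / 3) - Real.log D.c0 - D.Lam 1 - 2 * Real.log 2 + 2 * D.Q 1 := by
  unfold Phi
  rw [D.W_one]
  norm_num

lemma Phi_neg_one : D.Phi (-1) = - D.Lam (-1) + 2 * Real.log 2 + 2 * D.Q (-1) := by
  unfold Phi
  rw [D.W_neg_one]
  norm_num

/-- the state -/
theorem exists_state : ∃ st : State R, st.κ = Real.exp (∑ a, Real.negMulLog (D.s a ^ 2 / D.Z) -
    (D.Phi 1 - D.Phi (-1))) * (2 * (D.P 1 - D.P (-1))) := by
  have hHc : ContDiff ℝ 1 D.H := by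
    unfold H
    exact D.hPc.mul (by fun_prop)
  obtain ⟨C1, hC1, hL1⟩ := lip_tanh hHc
  have hlg : ContDiff ℝ 1 (fun u => Real.log (D.g u)) :=
    D.g_contDiff.log fun u => (D.g_pos u).ne'
  obtain ⟨C2, hC2, hL2⟩ := lip_tanh hlg
  obtain ⟨C3, hC3, hL3⟩ := lip_Icc D.W_contDiff
  set C := C1 + (C2 + 4) + 2 * C3 with hC
  have hC0 : 0 ≤ C := by positivity
  have hWx : ∀ x, ∑ a, D.s a ^ 2 / D.Z * D.F a a x = D.W (Real.tanh x) := by
    intro x
    unfold W
    rw [sum_div]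
    refine sum_congr rfl fun a _ => ?_
    rw [D.F_diag]; ring
  refine ⟨{
    lam := fun a => D.s a ^ 2 / D.Z
    ψ := D.psi
    F := D.F
    C := C
    P := fun x => D.P (Real.tanh x)
    P0 := D.P (-1)
    P1 := D.P 1
    p := fun x => 3 / 4 * D.g (Real.tanh x) * (1 - Real.tanh x ^ 2) ^ 2
    Φ := fun x => D.Phi (Real.tanh x)
    φ := fun x => D.phi (Real.tanh x) * (1 - Real.tanh x ^ 2)
    Φ0 := D.Phi (-1)
    Φ1 := D.Phi 1
    lam0 := fun a => div_nonneg (sq_nonneg _) D.Z0.le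
    lam1 := by rw [← sum_div, D.hZ, div_self D.Z0.ne']
    hC := hC0
    hs := fun a b x => by unfold F; rw [D.hPs a b]; ring
    hF := D.hF
    hF0 := ?_
    hF1 := ?_
    hP := ?_
    hLip := ?_
    hP0 := ?_
    hP1 := ?_
    hp := ?_
    p0 := ?_
    hpL := ?_
    hΦ := ?_
    hφ := ?_
    hΦ0 := ?_
    hΦ1 := ?_
    tail0 := ?_
    tail1 := ?_ }, rfl⟩
  · intro a b
    have h1 := ((D.cont_Pi a b).tendsto (-1)).comp tendsto_tanh_atBot
    rw [D.hPi0] at h1
    have h2 := h1.const_mul (√(D.d a) * √(D.d b))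
    rw [mul_zero] at h2
    exact h2
  · intro a b
    have h1 := ((D.cont_Pi a b).tendsto 1).comp tendsto_tanh_atTop
    rw [D.hPi1] at h1
    have h2 := h1.const_mul (√(D.d a) * √(D.d b))
    have h3 : √(D.d a) * √(D.d b) * (if a = b then (D.d a)⁻¹ else 0) = if a = b then 1 else 0 := by
      by_cases hab : a = b
      · subst hab
        rw [if_pos rfl, if_pos rfl, Real.mul_self_sqrt (D.d0 a).le, mul_inv_cancel₀ (D.d0 a).ne']
      · rw [if_neg hab, if_neg hab, mul_zero]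
    rw [h3] at h2
    exact h2
  · intro x
    rw [D.energy x]
    exact hasDeriv_comp (D.hP (Real.tanh x))
  · intro x y
    rw [D.energy x, D.energy y]
    refine (hL1 x y).trans ?_
    refine mul_le_mul_of_nonneg_right ?_ (abs_nonneg _)
    rw [hC]; linarith
  · have hc : Continuous D.P := continuous_iff_continuousAt.mpr fun u => (D.hP u).continuousAt
    exact (hc.tendsto (-1)).comp tendsto_tanh_atBot
  · have hc : Continuous D.P := continuous_iff_continuousAt.mpr fun u => (D.hP u).continuousAt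
    exact (hc.tendsto 1).comp tendsto_tanh_atTop
  · intro x
    unfold g psi
    rw [mul_div_assoc', mul_sum, sum_div, sum_mul]
    refine sum_congr rfl fun a _ => ?_
    have e1 := Real.sq_sqrt (show (0 : ℝ) ≤ 3 / 4 by norm_num)
    have e2 := Real.sq_sqrt (D.d0 a).le
    rw [mul_pow, mul_pow, mul_pow, e1, e2]
    ring
  · intro x
    have := D.g_pos (Real.tanh x)
    have := one_sub_sq_pos x
    positivity
  · intro x y
    have hlog : ∀ x, Real.log (3 / 4 * D.g (Real.tanh x) * (1 - Real.tanh x ^ 2) ^ 2) =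
        Real.log (3 / 4) + Real.log (D.g (Real.tanh x)) + 2 * Real.log (1 - Real.tanh x ^ 2) := by
      intro x
      have h1 := D.g_pos (Real.tanh x)
      have h2 := one_sub_sq_pos x
      rw [Real.log_mul (by positivity) (by positivity), Real.log_mul (by norm_num) h1.ne',
        Real.log_pow]
      push_cast; ring
    rw [hlog x, hlog y]
    have h3 := hL2 x y
    have h4 := lip_of_deriv (C := 2) hasDeriv_log_one_sub (fun x => by
      rw [abs_mul]
      have := Real.abs_tanh_lt_one x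
      norm_num
      linarith) x y
    have h5 : Real.log (3 / 4) + Real.log (D.g (Real.tanh x)) + 2 * Real.log (1 - Real.tanh x ^ 2) -
        (Real.log (3 / 4) + Real.log (D.g (Real.tanh y)) + 2 * Real.log (1 - Real.tanh y ^ 2)) =
        (Real.log (D.g (Real.tanh x)) - Real.log (D.g (Real.tanh y))) +
        2 * (Real.log (1 - Real.tanh x ^ 2) - Real.log (1 - Real.tanh y ^ 2)) := by ring
    rw [h5]
    refine (abs_add_le _ _).trans ?_
    rw [abs_mul, abs_of_pos (show (0 : ℝ) < 2 by norm_num)]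
    have h6 : 0 ≤ |x - y| := abs_nonneg _
    have h7 : C * |x - y| = C1 * |x - y| + C2 * |x - y| + 4 * |x - y| + 2 * C3 * |x - y| := by
      rw [hC]; ring
    rw [h7]
    have h8 : 0 ≤ C1 * |x - y| := by positivity
    have h9 : 0 ≤ 2 * C3 * |x - y| := by positivity
    linarith
  · intro x
    exact hasDeriv_comp (D.hPhi (Real.neg_one_lt_tanh x) (Real.tanh_lt_one x))
  · intro x
    exact D.phi_le (Real.neg_one_lt_tanh x) (Real.tanh_lt_one x)
  · exact (D.Phi_cont.tendsto (-1)).comp tendsto_tanh_atBot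
  · exact (D.Phi_cont.tendsto 1).comp tendsto_tanh_atTop
  · intro x hx
    rw [hWx]
    have h1 := hL3 (Real.tanh (-x)) (tanh_mem _) (-1) (by norm_num)
    rw [D.W_neg_one, sub_zero] at h1
    have h2 : |Real.tanh (-x) - -1| ≤ 2 * Real.exp (-x) := by
      rw [Real.tanh_neg, sub_neg_eq_add, abs_of_pos (by linarith [Real.tanh_lt_one x])]
      have := one_sub_tanh_le' hx
      linarith
    have h3 := (le_abs_self _).trans (h1.trans (mul_le_mul_of_nonneg_left h2 hC3))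
    refine h3.trans ?_
    have h4 : 0 < Real.exp (-x) := Real.exp_pos _
    rw [hC]
    have h5 : 0 ≤ (C1 + (C2 + 4)) * Real.exp (-x) := by positivity
    nlinarith
  · intro x hx
    rw [hWx]
    have h1 := hL3 1 (by norm_num) (Real.tanh x) (tanh_mem _)
    rw [D.W_one] at h1
    have h2 : |1 - Real.tanh x| ≤ 2 * Real.exp (-x) := by
      rw [abs_of_pos (by linarith [Real.tanh_lt_one x])]
      exact one_sub_tanh_le' hx
    have h3 := (le_abs_self _).trans (h1.trans (mul_le_mul_of_nonneg_left h2 hC3))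
    refine h3.trans ?_
    have h4 : 0 < Real.exp (-x) := Real.exp_pos _
    rw [hC]
    have h5 : 0 ≤ (C1 + (C2 + 4)) * Real.exp (-x) := by positivity
    nlinarith

end Data

end Pool.Agent.TH871.L1
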