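import Pool.Agent.H390R2.LP.Iface2
import Pool.Agent.H785R2.LP.Refine

/-!
One-site states from a measurement: a finite family of positive matrices `M x` with sum the identity
and a diagonal density matrix give a `Site`.
-/

open Finset

namespace Pool.Agent.TH871.L1

open Pool.Agent.H390R2.LP

theorem sym_diag {R : ℕ} (A : Fin R → Fin R → ℝ) (hA : ∀ a b, A a b = A b a) :
    ∃ (e : Fin R → Fin R → ℝ) (μ : Fin R → ℝ),
      (∀ i j, ∑ k, e i k * e j k = if i = j then 1 else 0) ∧
      (∀ k l, ∑ i, e i k * e i l = if k = l then 1 else 0) ∧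
      (∀ j k, ∑ l, A k l * e j l = μ j * e j k) := by
  have hH : (Matrix.of A).IsHermitian := by
    ext a b
    simp [Matrix.conjTranspose_apply, hA b a]
  refine ⟨fun i k => hH.eigenvectorBasis i k, hH.eigenvalues, ?_, ?_, ?_⟩
  · intro i j
    have h1 := orthonormal_iff_ite.mp hH.eigenvectorBasis.orthonormal i j
    rw [← h1, PiLp.inner_apply]
    exact sum_congr rfl fun k _ => by simp [mul_comm]
  · have hu : ∀ i j, ∑ k, hH.eigenvectorBasis i k * hH.eigenvectorBasis j k =
        if i = j then (1 : ℝ) else 0 := by
      intro i j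
      have h1 := orthonormal_iff_ite.mp hH.eigenvectorBasis.orthonormal i j
      rw [← h1, PiLp.inner_apply]
      exact sum_congr rfl fun k _ => by simp [mul_comm]
    set u : Fin R → Fin R → ℝ := fun i k => hH.eigenvectorBasis i k with hu'
    have h1 : (Matrix.of u) * (Matrix.of u).transpose = 1 := by
      ext a b
      rw [Matrix.mul_apply, Matrix.one_apply, ← hu a b]
      rfl
    have h2 : (Matrix.of u).transpose * (Matrix.of u) = 1 := mul_eq_one_comm.mp h1
    intro k l
    have := congrFun (congrFun h2 k) l
    rw [Matrix.mul_apply, Matrix.one_apply] at this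
    exact this
  · intro j k
    have h := congrFun (hH.mulVec_eigenvectorBasis j) k
    simpa [Matrix.mulVec, dotProduct] using h

theorem povm {X : Type} [Fintype X] [DecidableEq X] {R : ℕ} (M : X → Fin R → Fin R → ℝ)
    (hs : ∀ x a b, M x a b = M x b a)
    (hM : ∀ x (α : Fin R → ℝ), 0 ≤ ∑ a, ∑ b, α a * α b * M x a b)
    (hsum : ∀ a b, ∑ x, M x a b = if a = b then 1 else 0)
    (lam : Fin R → ℝ) (h0 : ∀ a, 0 ≤ lam a) (h1 : ∑ a, lam a = 1) :
    ∃ s : Site (X × Fin R) X, s.S = ∑ a, Real.negMulLog (lam a) ∧
      ∑ x, Real.negMulLog (∑ a, lam a * M x a a) ≤ s.h ∧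
      ∀ {I : Type} [Fintype I] (f : I → X → ℝ), s.E f =
        2 * ∑ i, (∑ a, lam a * ∑ x, f i x ^ 2 * M x a a
          - ∑ a, ∑ b, √(lam a * lam b) * (∑ x, f i x * M x a b) ^ 2) := by
  classical
  -- the rank is positive
  have hR : 0 < R := by
    rcases Nat.eq_zero_or_pos R with h | h
    · subst h
      simp at h1
    · exact h
  let a0 : Fin R := ⟨0, hR⟩
  have hX : Nonempty X := by
    by_contra h
    rw [not_nonempty_iff] at h
    have := hsum a0 a0
    simp at this
  obtain ⟨x0⟩ := hX
  -- factorisation
  have hK : ∀ x, ∃ K : Fin R → Fin R → ℝ, ∀ a b, ∑ r, K r a * K r b = M x a b := by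
    intro x
    obtain ⟨e, μ, e1, e2, e3⟩ := sym_diag (M x) (hs x)
    have hμ : ∀ i, 0 ≤ μ i := by
      intro i
      have := hM x (e i)
      have h2 : ∑ a, ∑ b, e i a * e i b * M x a b = μ i := by
        have : ∀ a, ∑ b, e i a * e i b * M x a b = μ i * (e i a * e i a) := by
          intro a
          have h3 := e3 i a
          calc ∑ b, e i a * e i b * M x a b = e i a * ∑ b, M x a b * e i b := by
                rw [mul_sum]; exact sum_congr rfl fun b _ => by ring
            _ = _ := by rw [h3]; ring
        simp_rw [this]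
        rw [← mul_sum, e1]; simp
      rwa [h2] at this
    refine ⟨fun r a => √(μ r) * e r a, fun a b => ?_⟩
    have h4 : ∀ r, √(μ r) * e r a * (√(μ r) * e r b) = (∑ l, M x a l * e r l) * e r b := by
      intro r
      rw [e3 r a]
      have := Real.mul_self_sqrt (hμ r)
      linear_combination (e r a * e r b) * this
    simp_rw [h4, sum_mul]
    rw [sum_comm]
    have h5 : ∀ l, ∑ r, M x a l * e r l * e r b = M x a l * if l = b then 1 else 0 := by
      intro l
      rw [← e2 l b, mul_sum]
      exact sum_congr rfl fun r _ => by ring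
    simp_rw [h5]
    simp
  choose K hK using hK
  -- the isometry, extended to an orthonormal basis
  set v : X × Fin R → EuclideanSpace ℝ (X × Fin R) := fun α => WithLp.toLp 2 fun ω => K ω.1 ω.2 α.2
    with hv
  have hvv : ∀ a b : Fin R, ∑ ω : X × Fin R, K ω.1 ω.2 a * K ω.1 ω.2 b = if a = b then 1 else 0 := by
    intro a b
    rw [Fintype.sum_prod_type]
    simp only [hK]
    exact hsum a b
  have hortho : Orthonormal ℝ (({α : X × Fin R | α.1 = x0} : Set (X × Fin R)).domRestrict v) := by
    rw [orthonormal_iff_ite]
    rintro ⟨⟨i, a⟩, hi⟩ ⟨⟨j, b⟩, hj⟩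
    have hi' : i = x0 := hi
    have hj' : j = x0 := hj
    subst hi'
    subst hj'
    show inner ℝ (v (j, a)) (v (j, b)) = _
    rw [hv, PiLp.inner_apply]
    have : ∑ ω : X × Fin R, inner ℝ (K ω.1 ω.2 a) (K ω.1 ω.2 b) = if a = b then 1 else 0 := by
      rw [← hvv a b]
      exact sum_congr rfl fun ω _ => by simp [mul_comm]
    rw [this]
    by_cases hab : a = b
    · subst hab; simp
    · simp [hab]
  obtain ⟨bb, hbb⟩ := hortho.exists_orthonormalBasis_extension_of_card_eq (by simp)
  set u : X × Fin R → X × Fin R → ℝ := fun α ω => bb α ω with hu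
  have u_orth : ∀ a b, ∑ ω, u a ω * u b ω = if a = b then 1 else 0 := by
    intro i j
    have h1 := orthonormal_iff_ite.mp bb.orthonormal i j
    rw [← h1, PiLp.inner_apply]
    exact sum_congr rfl fun k _ => by simp [hu, mul_comm]
  have u_val : ∀ a ω, u (x0, a) ω = K ω.1 ω.2 a := by
    intro a ω
    have : bb (x0, a) = v (x0, a) := hbb (x0, a) rfl
    simp only [hu, this, hv]
  set lam' : X × Fin R → ℝ := fun α => if α.1 = x0 then lam α.2 else 0 with hlam'
  have red : ∀ H : X × Fin R → ℝ, (∀ α, α.1 ≠ x0 → H α = 0) → ∑ α, H α = ∑ a, H (x0, a) := by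
    intro H hH
    rw [Fintype.sum_prod_type, Finset.sum_eq_single x0]
    · intro x _ hx
      exact sum_eq_zero fun a _ => hH (x, a) hx
    · intro h; exact absurd (mem_univ x0) h
  -- diagonalisation at each position
  set A : X → Fin R → Fin R → ℝ := fun x r r' => ∑ a, lam a * (K x r a * K x r' a) with hA
  have hAs : ∀ x r r', A x r r' = A x r' r := by
    intro x r r'
    exact sum_congr rfl fun a _ => by ring
  have hdiag := fun x => sym_diag (A x) (hAs x)
  choose e γ e1 e2 e3 using hdiag
  have hγ : ∀ x j j', ∑ a, lam a * (∑ r, K x r a * e x j r) * (∑ r, K x r a * e x j' r) =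
      if j = j' then γ x j else 0 := by
    intro x j j'
    have h2 : ∑ a, lam a * (∑ r, K x r a * e x j r) * (∑ r, K x r a * e x j' r) =
        ∑ r, e x j r * ∑ r', A x r r' * e x j' r' := by
      calc ∑ a, lam a * (∑ r, K x r a * e x j r) * (∑ r, K x r a * e x j' r)
          = ∑ a, ∑ r, ∑ r', e x j r * (lam a * (K x r a * K x r' a) * e x j' r') := by
            refine sum_congr rfl fun a _ => ?_
            rw [mul_assoc, sum_mul_sum, mul_sum]
            refine sum_congr rfl fun r _ => ?_
            rw [mul_sum]
            exact sum_congr rfl fun r' _ => by ring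
        _ = _ := by
            rw [sum_comm]
            refine sum_congr rfl fun r _ => ?_
            rw [sum_comm, mul_sum]
            refine sum_congr rfl fun r' _ => ?_
            rw [hA]
            simp only
            rw [sum_mul, mul_sum]
    rw [h2]
    simp_rw [e3]
    have h3 : ∀ r, e x j r * (γ x j' * e x j' r) = γ x j' * (e x j r * e x j' r) := fun r => by ring
    simp_rw [h3]
    rw [← mul_sum, e1]
    by_cases hjj : j = j'
    · subst hjj; simp
    · simp [hjj]
  have hγ0 : ∀ x j, 0 ≤ γ x j := by
    intro x j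
    have := hγ x j j
    rw [if_pos rfl] at this
    rw [← this]
    refine sum_nonneg fun a _ => ?_
    rw [mul_assoc]
    exact mul_nonneg (h0 a) (mul_self_nonneg _)
  have hγs : ∀ x, ∑ j, γ x j = ∑ a, lam a * M x a a := by
    intro x
    have h2 : ∀ j, γ x j = ∑ a, lam a * (∑ r, K x r a * e x j r) * (∑ r, K x r a * e x j r) := by
      intro j; rw [hγ]; simp
    simp_rw [h2]
    rw [sum_comm]
    refine sum_congr rfl fun a _ => ?_
    rw [← hK x a a]
    have h3 : ∀ j, lam a * (∑ r, K x r a * e x j r) * (∑ r, K x r a * e x j r) =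
        lam a * ∑ r, ∑ r', (K x r a * K x r' a) * (e x j r * e x j r') := by
      intro j
      rw [mul_assoc, sum_mul_sum]
      congr 1
      refine sum_congr rfl fun r _ => ?_
      exact sum_congr rfl fun r' _ => by ring
    simp_rw [h3]
    rw [← mul_sum, sum_comm]
    congr 1
    refine sum_congr rfl fun r _ => ?_
    rw [sum_comm]
    have h4 : ∀ r', ∑ j, K x r a * K x r' a * (e x j r * e x j r') =
        K x r a * K x r' a * if r = r' then 1 else 0 := by
      intro r'
      rw [← mul_sum, e2]
    simp_rw [h4]
    simp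
  let s : Site (X × Fin R) X :=
    { pos := fun ω => ω.1
      u := u
      w := fun c ω => if c.1 = ω.1 then e c.1 c.2 ω.2 else 0
      lam := lam'
      g := fun c => γ c.1 c.2
      lab := fun c => c.1
      u_orth := u_orth
      w_orth := by
        rintro ⟨x, j⟩ ⟨y, k⟩
        rw [Fintype.sum_prod_type]
        simp only
        by_cases hxy : x = y
        · subst hxy
          rw [Finset.sum_eq_single x]
          · simp only [if_true]
            rw [e1]
            by_cases hjk : j = k
            · subst hjk; simp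
            · simp [hjk]
          · intro z _ hz
            refine sum_eq_zero fun r _ => ?_
            rw [if_neg (Ne.symm hz), zero_mul]
          · intro h; exact absurd (mem_univ x) h
        · rw [if_neg (by simp [hxy])]
          refine sum_eq_zero fun z _ => sum_eq_zero fun r _ => ?_
          by_cases hz : x = z
          · have : y ≠ z := fun h => hxy (hz.trans h.symm)
            rw [if_neg this, mul_zero]
          · rw [if_neg hz, zero_mul]
      lam_nonneg := by
        intro a
        simp only [hlam']
        split_ifs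
        · exact h0 _
        · exact le_rfl
      lam_sum := by
        rw [red lam' (fun α hα => by simp only [hlam']; rw [if_neg hα])]
        simp only [hlam', if_true]
        exact h1
      w_supp := by
        rintro ⟨x, j⟩ ⟨y, k⟩ h
        simp only at h ⊢
        rw [if_neg (fun hh => h hh.symm)]
      w_diag := by
        rintro ⟨x, j⟩ ⟨y, k⟩ h
        simp only at h
        subst h
        rw [red (fun a => lam' a * (∑ ω, u a ω * (if x = ω.1 then e x j ω.2 else 0)) *
          (∑ ω, u a ω * (if x = ω.1 then e x k ω.2 else 0))) (fun α hα => by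
            simp only [hlam']; rw [if_neg hα, zero_mul, zero_mul])]
        have h2 : ∀ (a : Fin R) (j : Fin R), ∑ ω : X × Fin R, u (x0, a) ω *
            (if x = ω.1 then e x j ω.2 else 0) = ∑ r, K x r a * e x j r := by
          intro a j
          rw [Fintype.sum_prod_type, Finset.sum_eq_single x]
          · simp only [if_true, u_val]
          · intro z _ hz
            refine sum_eq_zero fun r _ => ?_
            rw [if_neg (Ne.symm hz), mul_zero]
          · intro h; exact absurd (mem_univ x) h
        simp only [h2, hlam', if_true]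
        rw [hγ]
        by_cases hjk : j = k
        · subst hjk; simp
        · simp [hjk] }
  refine ⟨s, ?_, ?_, ?_⟩
  · show ∑ a, Real.negMulLog (lam' a) = _
    rw [red (fun a => Real.negMulLog (lam' a)) (fun α hα => by
      simp only [hlam']; rw [if_neg hα, Real.negMulLog_zero])]
    simp only [hlam', if_true]
  · show _ ≤ ∑ c : X × Fin R, Real.negMulLog (γ c.1 c.2)
    rw [Fintype.sum_prod_type]
    refine sum_le_sum fun x _ => ?_
    simp only
    rw [← hγs]
    -- superadditivity
    set Γ := ∑ j, γ x j with hΓ
    have hle : ∀ j, γ x j ≤ Γ := fun j => single_le_sum (fun j _ => hγ0 x j) (mem_univ j)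
    have h2 : Real.negMulLog Γ = ∑ j, γ x j * (-Real.log Γ) := by
      rw [← sum_mul, ← hΓ]; unfold Real.negMulLog; ring
    rw [h2]
    refine sum_le_sum fun j _ => ?_
    unfold Real.negMulLog
    rcases (hγ0 x j).eq_or_lt with h | h
    · rw [← h]; simp
    · have := Real.log_le_log h (hle j)
      nlinarith
  · intro I _ f
    show 2 * ∑ i, (∑ a, lam' a * ∑ ω, u a ω ^ 2 * f i ω.1 ^ 2
      - ∑ a, ∑ b, √(lam' a * lam' b) * (∑ ω, u a ω * f i ω.1 * u b ω) ^ 2) = _
    congr 1
    refine sum_congr rfl fun i _ => ?_
    have hsqrt : ∀ α β : X × Fin R, α.1 ≠ x0 ∨ β.1 ≠ x0 → √(lam' α * lam' β) = 0 := by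
      intro α β h
      simp only [hlam']
      rcases h with h | h
      · rw [if_neg h, zero_mul, Real.sqrt_zero]
      · rw [if_neg h, mul_zero, Real.sqrt_zero]
    rw [red (fun a => lam' a * ∑ ω, u a ω ^ 2 * f i ω.1 ^ 2) (fun α hα => by
        simp only [hlam']; rw [if_neg hα, zero_mul]),
      red (fun a => ∑ b, √(lam' a * lam' b) * (∑ ω, u a ω * f i ω.1 * u b ω) ^ 2)
        (fun α hα => sum_eq_zero fun β _ => by rw [hsqrt α β (Or.inl hα), zero_mul])]
    congr 1
    · refine sum_congr rfl fun a _ => ?_
      simp only [hlam', if_true]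
      congr 1
      rw [Fintype.sum_prod_type]
      refine sum_congr rfl fun x _ => ?_
      simp only [u_val]
      rw [← hK x a a, mul_sum]
      exact sum_congr rfl fun r _ => by ring
    · refine sum_congr rfl fun a _ => ?_
      rw [red (fun b => √(lam' (x0, a) * lam' b) * (∑ ω, u (x0, a) ω * f i ω.1 * u b ω) ^ 2)
        (fun β hβ => by rw [hsqrt (x0, a) β (Or.inr hβ), zero_mul])]
      refine sum_congr rfl fun b _ => ?_
      simp only [hlam', if_true]
      congr 2
      rw [Fintype.sum_prod_type]
      refine sum_congr rfl fun x _ => ?_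
      simp only [u_val]
      rw [← hK x a b, mul_sum]
      exact sum_congr rfl fun r _ => by ring

end Pool.Agent.TH871.L1
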